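import Pool.Agent.SWT45.Defs

/-!
# State sums of based graphs: statements of the general library and of the congruence
-/

set_option autoImplicit false

namespace Pool.Agent.SWT45

open Equiv Pool.Agent.SWT80
open scoped Classical

/-! ### The general library -/

/-- The sign does not depend on `κ`. -/
def S_sg : Prop :=
  ∀ (V : Type) [Fintype V] (e r κ : Perm V) (o p : V → Bool), (∀ v, e (e v) = v) →
    (∀ v, r (r (r v)) = v) → Par2 e r o p → IsK e r o p κ → sg e r o p = ((Perm.sign κ : ℤˣ) : ℤ)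

/-- Existence of `κ`. -/
def S_ex : Prop :=
  ∀ (V : Type) [Fintype V] (e r : Perm V) (o p : V → Bool), (∀ v, e (e v) = v) →
    (∀ v, r (r (r v)) = v) → Par2 e r o p → ∃ κ, IsK e r o p κ

def S_rep : Prop := ∀ (V : Type) [Fintype V] (r : Perm V), (∀ v, r (r (r v)) = v) → ∃ Q, IsRep r Q

def S_vp : Prop :=
  ∀ (V : Type) [Fintype V] (r : Perm V) (Q : Finset V) (f : V → ℤ), (∀ v, r (r (r v)) = v) →
    IsRep r Q → (∀ v, f (r v) = f v) → vp r f = ∏ v ∈ Q, f v

/-- Renaming of the half-edges. -/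
def S_map : Prop :=
  ∀ (L : Type) [Fintype L] (S : LS L), S.Ok → ∀ (V W : Type) [Fintype V] [Fintype W] (n : ℕ)
    (f : V ≃ W) (G : Gr V n) (A : V → L → Prop) (B : W → L → Prop), (∀ v l, B (f v) l ↔ A v l) →
    Z S (G.map f) B = Z S G A

/-- Reversal of a cyclic order: the values of `T` on the allowed labels at the vertex of `x` are
antisymmetric if they are even, and symmetric if two labels are odd. -/
def S_flip : Prop :=
  ∀ (L : Type) [Fintype L] (S : LS L), S.Ok → ∀ (V : Type) [Fintype V] (n : ℕ) (G : Gr V n) (x : V)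
    (A : V → L → Prop), G.r x ≠ x → Adm S G A → (∀ v l, G.r v = v → A v l → S.odd l = false) →
    (∀ a b c, A x a → A (G.r x) b → A (G.r (G.r x)) c →
      S.T a c b = if S.odd a || (S.odd b || S.odd c) then S.T a b c else - S.T a b c) →
    Z S (G.flip x) A = - Z S G A

/-- Linear relations between the state sums of `I`, `J`, `X` follow from the local ones. -/
def S_loc : Prop :=
  ∀ (L : Type) [Fintype L] (S : LS L), S.Ok → ∀ (V : Type) [Fintype V] (n : ℕ) (I J X : Gr V n)
    (x : V), Gr.Loc I J X x → ∀ AI AJ AX : V → L → Prop, Adm S I AI → Adm S J AJ → Adm S X AX →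
    (∀ v l, I.r v = v → AI v l → S.odd l = false) →
    (∀ v, v ≠ x → v ≠ I.e x → ∀ l, (AJ v l ↔ AI v l) ∧ (AX v l ↔ AI v l)) →
    ∀ α β γ : ℤ,
    (∀ a b c d, AI (I.r x) a → AI (I.r (I.r x)) b → AI (I.r (I.e x)) c →
      AI (I.r (I.r (I.e x))) d →
      α * tI S (AI x) a b c d + β * tJ S (AJ x) a b c d + γ * tX S (AX x) a b c d = 0) →
    α * Z S I AI + β * Z S J AJ + γ * Z S X AX = 0

/-! ### The state sums with flows (helper45) -/

/-- The flows agree except on the edge `{x, I.e x}`. -/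
def Off {V : Type} {n : ℕ} (I : Gr V n) (x : V) (φ ψ : V → ZMod 3) : Prop :=
  ∀ v, v ≠ x → v ≠ I.e x → ψ v = φ v

/-- AS at a trivalent vertex which is not the end of three legs. -/
def S_Cas : Prop :=
  ∀ (V : Type) [Fintype V] (n : ℕ) (G : Gr V n) (x : V) (φ : V → ZMod 3), Flow G φ → G.r x ≠ x →
    ¬ (Lg G x ∧ Lg G (G.r x) ∧ Lg G (G.r (G.r x))) → C (G.flip x) φ = - C G φ

/-- IHX at an edge between two trivalent vertices which are not ends of legs. -/
def S_Cihx : Prop :=
  ∀ (V : Type) [Fintype V] (n : ℕ) (I J X : Gr V n) (x : V), Gr.Loc I J X x →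
    ∀ φ ψ χ : V → ZMod 3, Flow I φ → Flow J ψ → Flow X χ → Off I x φ ψ → Off I x φ χ →
    Real I x → Real I (I.e x) → C I φ - C J ψ + C X χ = 0

/-- A hair next to a source or sink can be moved to another strand of it. -/
def S_Chair : Prop :=
  ∀ (V : Type) [Fintype V] (n : ℕ) (I J X : Gr V n) (x : V), Gr.Loc I J X x →
    ∀ φ ψ χ : V → ZMod 3, Flow I φ → Flow J ψ → Flow X χ → Off I x φ ψ → Off I x φ χ →
    φ x ≠ 0 → φ (I.r x) = φ x → φ (I.r (I.r x)) = φ x →
    (Lg I (I.r (I.e x)) ∨ Lg I (I.r (I.r (I.e x)))) →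
    C I φ = - C J ψ ∧ C I φ = C X χ

/-- The value is zero if the flow is zero at some trivalent vertex which is not the end of three
legs. -/
def S_Czero : Prop :=
  ∀ (V : Type) [Fintype V] (n : ℕ) (G : Gr V n) (x : V) (φ : V → ZMod 3), Flow G φ → G.r x ≠ x →
    φ x = 0 → φ (G.r x) = 0 → φ (G.r (G.r x)) = 0 →
    ¬ (Lg G x ∧ Lg G (G.r x) ∧ Lg G (G.r (G.r x))) → cosp G φ = 0 ∧ cgl G φ = 0

/-! ### The congruence (helper36, helper46, helper89) -/

/-- The congruence, for the graphs with 8 trivalent vertices which are not ends of legs. -/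
def S_cong : Prop :=
  ∀ (V : Type) [Fintype V] (n : ℕ) (G : Gr V n) (φ : V → ZMod 3), Flow G φ →
    (Finset.univ.filter fun v => Real G v).card = 24 → (9 : ℤ) ∣ C G φ

/-- The case without sources and sinks. -/
def S_base : Prop :=
  ∀ (V : Type) [Fintype V] (n : ℕ) (G : Gr V n) (φ : V → ZMod 3), Flow G φ →
    (Finset.univ.filter fun v => Real G v).card = 24 →
    (∀ v, φ v ≠ 0 → ¬ (φ (G.r v) = φ v ∧ φ (G.r (G.r v)) = φ v)) → (9 : ℤ) ∣ C G φ

end Pool.Agent.SWT45
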