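import Pool.Agent.SWT45.In8
import Pool.Agent.SWT36.Cong
import Pool.Agent.SWT58.Flip
import Pool.Agent.SWT58.Rep
import Pool.Agent.SWT67.Loc
import Pool.Agent.SWT89.Base

/-!
# The input of level 8, without hypotheses
-/

set_option autoImplicit false

namespace Pool.Agent.SWT45

open Pool.Agent.SWT93

theorem cong : S_cong :=
  SWT36.cong_of (SWT89.base_of C_zero) (C_ihx SWT67.loc) (C_hair SWT67.loc)

theorem in8_z8 : In8 72 z8 := in8 SWT67.loc SWT58.s_flip SWT58.s_map cong

end Pool.Agent.SWT45
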