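import Mathlib
import Pool.Agent.SWT80.Ops
import Pool.Agent.SWT84.Cy
import Pool.Agent.SWT89.Rimd

/-!
# Graphs with removed edges: connectedness and cycles

Euler's inequality, an
edge of a cycle can be removed, an edge which can be removed lies on a cycle.
-/

set_option autoImplicit false

namespace Pool.Agent.SWT45

open Equiv Pool.Agent.SWT80 Pool.Agent.SWT93 Pool.Agent.SWT84 Pool.Agent.SWT89

variable {V : Type} {n : ℕ}

/-! ### Euler's inequality -/

section Euler

variable {G : Gr V n} {Q : Finset V}

open Classical in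
/-- The function on the half-edges defined by a function on the vertices. -/
noncomputable def ext (G : Gr V n) (Q : Finset V) (f : Q ⊕ Fin n → ZMod 2) (v : V) : ZMod 2 :=
  ∑ q : Q, (if G.vt q v then f (Sum.inl q) else 0) + ∑ i, if G.leg i = v then f (Sum.inr i) else 0

theorem vt_symm' {a b : V} (h : G.vt a b) : G.vt b a := by
  rcases h with h | h | h
  · exact Or.inl h.symm
  · refine Or.inr (Or.inr ?_)
    rw [h, G.r3]
  · refine Or.inr (Or.inl ?_)
    rw [h, G.r3]

theorem q_unique (hQ : SWT45.IsRep G.r Q) {a b : V} (ha : a ∈ Q) (hb : b ∈ Q) (h : G.vt a b) :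
    b = a := by
  rcases h with h | h | h
  · exact h
  · exact absurd (h ▸ hb) (hQ.un a ha).1
  · exact absurd (h ▸ hb) (hQ.un a ha).2

theorem ext_r (f : Q ⊕ Fin n → ZMod 2) (v : V) :
    ext G Q f (G.r v) = ext G Q f v := by
  unfold ext
  congr 1
  · refine Finset.sum_congr rfl fun q _ => ?_
    by_cases h : G.vt q v
    · rw [if_pos h, if_pos (G.vt_r.2 h)]
    · rw [if_neg h, if_neg fun h' => h (G.vt_r.1 h')]
  · refine Finset.sum_congr rfl fun i _ => ?_
    by_cases h : G.leg i = v
    · rw [if_pos h, if_pos]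
      rw [← h, G.r_leg]
    · rw [if_neg h, if_neg]
      intro h'
      apply h
      have h2 : G.r (G.leg i) = G.r v := by rw [G.r_leg, h']
      exact G.r_inj h2

theorem ext_q (hQ : SWT45.IsRep G.r Q) (f : Q ⊕ Fin n → ZMod 2) (q : Q) :
    ext G Q f q = f (Sum.inl q) := by
  classical
  unfold ext
  have hvt : G.vt (q : V) (q : V) := Or.inl rfl
  rw [Finset.sum_eq_single q, if_pos hvt, Finset.sum_eq_zero, add_zero]
  · intro i _
    rw [if_neg]
    intro h
    apply hQ.nf q q.2
    rw [← h, G.r_leg]
  · intro q' _ hq'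
    rw [if_neg]
    intro h
    exact hq' (Subtype.ext (q_unique hQ q'.2 q.2 h).symm)
  · intro h
    exact absurd (Finset.mem_univ _) h

theorem ext_leg (hQ : SWT45.IsRep G.r Q) (f : Q ⊕ Fin n → ZMod 2) (i : Fin n) :
    ext G Q f (G.leg i) = f (Sum.inr i) := by
  classical
  unfold ext
  rw [Finset.sum_eq_zero, Finset.sum_eq_single i, if_pos rfl, zero_add]
  · intro j _ hj
    rw [if_neg fun h => hj (G.inj h)]
  · intro h
    exact absurd (Finset.mem_univ _) h
  · intro q _
    rw [if_neg]
    intro h
    have h1 := vt_symm' h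
    apply hQ.nf q q.2
    rcases h1 with h1 | h1 | h1
    · rw [h1, G.r_leg]
    · rw [h1, G.r_leg, G.r_leg]
    · rw [h1, G.r_leg, G.r_leg, G.r_leg]

end Euler

/-- **Euler's inequality.** -/
theorem euler [Finite V] {G : Gr V n} {D : Set V} (hD : Ecl G D) (h : CD G D) :
    4 * n + 3 * D.ncard ≤ Nat.card V + 6 := by
  classical
  have : Fintype V := Fintype.ofFinite V
  rw [Nat.card_eq_fintype_card]
  obtain ⟨P, hP, hPc⟩ := exists_half G.e G.e2 G.e1
  obtain ⟨Q, hQ⟩ := SWT58.exists_rep G.r G.r3
  have hQc := card_vertices G hQ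
  let P' : Finset V := P.filter fun v => v ∉ D
  -- the number of the edges outside `D`
  have hDf : 2 * (P.filter fun v => v ∈ D).card = D.ncard := by
    have h1 : D.ncard = (Finset.univ.filter fun v => v ∈ D).card := by
      rw [← Set.ncard_coe_finset]
      congr 1
      ext v
      simp
    have h2 : (Finset.univ.filter fun v => v ∈ D).card =
        ((P.filter fun v => v ∈ D).card + (Pᶜ.filter fun v => v ∈ D).card) := by
      rw [← Finset.card_union_of_disjoint]
      · congr 1
        ext v
        simp only [Finset.mem_filter, Finset.mem_univ, true_and, Finset.mem_union,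
          Finset.mem_compl]
        tauto
      · rw [Finset.disjoint_left]
        intro v hv hv'
        rw [Finset.mem_filter] at hv hv'
        exact (Finset.mem_compl.1 hv'.1) hv.1
    have h3 : (Pᶜ.filter fun v => v ∈ D).card = (P.filter fun v => v ∈ D).card := by
      apply Finset.card_bij (fun v _ => G.e v)
      · intro v hv
        rw [Finset.mem_filter, Finset.mem_compl] at hv
        rw [Finset.mem_filter]
        refine ⟨?_, hD v hv.2⟩
        by_contra h3
        exact hv.1 ((hP v).2 h3)
      · intro v _ w _ h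
        exact G.e_inj h
      · intro v hv
        rw [Finset.mem_filter] at hv
        refine ⟨G.e v, ?_, G.e2 v⟩
        rw [Finset.mem_filter, Finset.mem_compl]
        exact ⟨(hP v).1 hv.1, hD v hv.2⟩
    omega
  have hP'c : P'.card + (P.filter fun v => v ∈ D).card = P.card := by
    have := Finset.card_filter_add_card_filter_not (s := P) (fun v => v ∈ D)
    show (P.filter fun v => v ∉ D).card + _ = _
    omega
  let δ : (Q ⊕ Fin n → ZMod 2) →ₗ[ZMod 2] (P' → ZMod 2) :=
    { toFun := fun f v => ext G Q f v + ext G Q f (G.e v)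
      map_add' := fun f g => by
        funext v
        have hadd : ∀ w, ext G Q (f + g) w = ext G Q f w + ext G Q g w := by
          intro w
          unfold ext
          rw [add_add_add_comm, ← Finset.sum_add_distrib, ← Finset.sum_add_distrib]
          congr 1
          · refine Finset.sum_congr rfl fun q _ => ?_
            split_ifs
            · rfl
            · rw [add_zero]
          · refine Finset.sum_congr rfl fun i _ => ?_
            split_ifs
            · rfl
            · rw [add_zero]
        show ext G Q (f + g) v + ext G Q (f + g) (G.e v) =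
          (ext G Q f v + ext G Q f (G.e v)) + (ext G Q g v + ext G Q g (G.e v))
        rw [hadd, hadd]
        ring
      map_smul' := fun c f => by
        funext v
        have hsm : ∀ w, ext G Q (c • f) w = c * ext G Q f w := by
          intro w
          unfold ext
          rw [mul_add, Finset.mul_sum, Finset.mul_sum]
          congr 1
          · refine Finset.sum_congr rfl fun q _ => ?_
            split_ifs
            · rfl
            · rw [mul_zero]
          · refine Finset.sum_congr rfl fun i _ => ?_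
            split_ifs
            · rfl
            · rw [mul_zero]
        show ext G Q (c • f) v + ext G Q (c • f) (G.e v) =
          c * (ext G Q f v + ext G Q f (G.e v))
        rw [hsm, hsm]
        ring }
  have hker : LinearMap.ker δ ≤ Submodule.span (ZMod 2) {fun _ => (1 : ZMod 2)} := by
    intro f hf
    rw [LinearMap.mem_ker] at hf
    rw [Submodule.mem_span_singleton]
    by_cases hV : Nonempty V
    · obtain ⟨v0⟩ := hV
      have hS := h {v | ext G Q f v = ext G Q f v0} ⟨
        (fun v hv hvD => by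
          show ext G Q f (G.e v) = ext G Q f v0
          have hd : ∀ a b : ZMod 2, a + b = 0 → b = a := by decide
          have hv' : ext G Q f v = ext G Q f v0 := hv
          by_cases hvP : v ∈ P
          · have h1 := congrFun hf ⟨v, by
              rw [Finset.mem_filter]
              exact ⟨hvP, hvD⟩⟩
            rw [← hv']
            exact hd _ _ h1
          · have hevD : G.e v ∉ D := fun h' => hvD (by
              have := hD _ h'
              rwa [G.e2] at this)
            have h0 : G.e v ∈ P := by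
              by_contra h3
              exact hvP ((hP v).2 h3)
            have h1 := congrFun hf ⟨G.e v, by
              rw [Finset.mem_filter]
              exact ⟨h0, hevD⟩⟩
            have h2 : ext G Q f (G.e v) + ext G Q f (G.e (G.e v)) = 0 := h1
            rw [G.e2] at h2
            rw [← hv']
            exact (hd _ _ h2).symm),
        (fun v hv => by
          show ext G Q f (G.r v) = ext G Q f v0
          rw [ext_r]
          exact hv)⟩ ⟨v0, rfl⟩
      refine ⟨ext G Q f v0, ?_⟩
      funext t
      show ext G Q f v0 * 1 = f t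
      rw [mul_one]
      rcases t with q | i
      · have h1 : (q : V) ∈ {v | ext G Q f v = ext G Q f v0} := by rw [hS]; trivial
        rw [← ext_q hQ f q]
        exact h1.symm
      · have h1 : G.leg i ∈ {v | ext G Q f v = ext G Q f v0} := by rw [hS]; trivial
        rw [← ext_leg hQ f i]
        exact h1.symm
    · refine ⟨0, ?_⟩
      funext t
      rcases t with q | i
      · exact absurd ⟨(q : V)⟩ hV
      · exact absurd ⟨G.leg i⟩ hV
  have hk1 : Module.finrank (ZMod 2) (LinearMap.ker δ) ≤ 1 := by
    refine (Submodule.finrank_mono hker).trans ?_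
    exact (finrank_span_le_card _).trans (by simp)
  have hrk := LinearMap.finrank_range_add_finrank_ker δ
  have hr2 : Module.finrank (ZMod 2) (LinearMap.range δ) ≤ P'.card := by
    refine (Submodule.finrank_le _).trans ?_
    rw [Module.finrank_pi, Fintype.card_coe]
  rw [Module.finrank_pi, Fintype.card_sum, Fintype.card_coe, Fintype.card_fin] at hrk
  omega

/-! ### An edge of a cycle can be removed -/

/-- The other half-edge of the cycle at the same vertex. -/
noncomputable def oth (G : Gr V n) (R : Set V) (v : V) : V :=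
  open Classical in if G.r v ∈ R then G.r v else G.r (G.r v)

theorem oth_mem {G : Gr V n} {R : Set V} (h : Cy G R) {v : V} (hv : v ∈ R) : oth G R v ∈ R := by
  unfold oth
  rcases h.two v hv with ⟨h1, _⟩ | ⟨h1, h2⟩
  · rw [if_pos h1]
    exact h1
  · rw [if_neg h1]
    exact h2

theorem oth_oth {G : Gr V n} {R : Set V} (h : Cy G R) {v : V} (hv : v ∈ R) :
    oth G R (oth G R v) = v := by
  unfold oth
  rcases h.two v hv with ⟨h1, h2⟩ | ⟨h1, h2⟩
  · rw [if_pos h1, if_neg h2, G.r3]
  · rw [if_neg h1, G.r3, if_pos hv]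

theorem oth_ne {G : Gr V n} {R : Set V} (h : Cy G R) {v : V} (hv : v ∈ R) : oth G R v ≠ v := by
  have hr := h.ne_leg hv
  unfold oth
  rcases h.two v hv with ⟨h1, _⟩ | ⟨h1, h2⟩
  · rw [if_pos h1]
    exact hr
  · rw [if_neg h1]
    exact fun h3 => hr (G.r2 h3)

/-- A union of vertices contains an even number of half-edges of a cycle. -/
theorem even_cy [Finite V] {G : Gr V n} {R S : Set V} (h : Cy G R) (hS : ∀ v ∈ S, G.r v ∈ S) :
    Even (R ∩ S).ncard := by
  classical
  have : Fintype V := Fintype.ofFinite V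
  have h1 : (R ∩ S).ncard = (Finset.univ.filter fun v => v ∈ R ∩ S).card := by
    rw [← Set.ncard_coe_finset]
    congr 1
    ext v
    simp
  rw [h1]
  have h2 : ∑ v ∈ Finset.univ.filter (fun v => v ∈ R ∩ S), (1 : ZMod 2) = 0 := by
    apply Finset.sum_involution (fun v _ => oth G R v)
    · intro v _
      decide
    · intro v hv _
      rw [Finset.mem_filter] at hv
      exact oth_ne h hv.2.1
    · intro v hv
      rw [Finset.mem_filter] at hv ⊢
      refine ⟨Finset.mem_univ _, oth_mem h hv.2.1, ?_⟩
      unfold oth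
      split_ifs
      · exact hS _ hv.2.2
      · exact hS _ (hS _ hv.2.2)
    · intro v hv
      rw [Finset.mem_filter] at hv
      exact oth_oth h hv.2.1
  rw [Finset.sum_const, nsmul_eq_mul, mul_one, ZMod.natCast_eq_zero_iff_even] at h2
  exact h2

/-- The ends of an edge of a cycle are not separated by the removal of the edge. -/
theorem cy_iff [Finite V] {G : Gr V n} {R S : Set V} (h : Cy G R) {y : V} (hy : y ∈ R)
    (hr : ∀ v ∈ S, G.r v ∈ S) (he : ∀ v ∈ S, v ∈ R → v ≠ y → v ≠ G.e y → G.e v ∈ S)
    (h1 : y ∈ S) : G.e y ∈ S := by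
  classical
  by_contra h2
  have : Fintype V := Fintype.ofFinite V
  have h3 := even_cy h hr
  have h4 : (R ∩ S).ncard = (Finset.univ.filter fun v => v ∈ R ∩ S).card := by
    rw [← Set.ncard_coe_finset]
    congr 1
    ext v
    simp
  have hmem : y ∈ Finset.univ.filter fun v => v ∈ R ∩ S := by
    rw [Finset.mem_filter]
    exact ⟨Finset.mem_univ _, hy, h1⟩
  have h5 : ∑ v ∈ (Finset.univ.filter fun v => v ∈ R ∩ S).erase y, (1 : ZMod 2) = 0 := by
    apply Finset.sum_involution (fun v _ => G.e v)
    · intro v _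
      decide
    · intro v _ _
      exact G.e1 v
    · intro v hv
      rw [Finset.mem_erase, Finset.mem_filter] at hv ⊢
      have hv2 : v ≠ G.e y := fun h' => h2 (h' ▸ hv.2.2.2)
      refine ⟨fun h' => hv2 ?_, Finset.mem_univ _, h.e v hv.2.2.1,
        he v hv.2.2.2 hv.2.2.1 hv.1 hv2⟩
      rw [← h', G.e2]
    · intro v _
      exact G.e2 v
  rw [Finset.sum_const, nsmul_eq_mul, mul_one, ZMod.natCast_eq_zero_iff_even,
    Finset.card_erase_of_mem hmem] at h5
  rw [h4] at h3
  have h6 : 0 < (Finset.univ.filter fun v => v ∈ R ∩ S).card := Finset.card_pos.2 ⟨y, hmem⟩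
  obtain ⟨a, ha⟩ := h3
  obtain ⟨b, hb⟩ := h5
  omega

/-- **An edge of a cycle can be removed.** -/
theorem cd_remove [Finite V] {G : Gr V n} {D R : Set V} (h : CD G D) (hR : Cy G R)
    (hd : ∀ v ∈ R, v ∉ D) {y : V} (hy : y ∈ R) : CD G (D ∪ {y, G.e y}) := by
  intro S hS hne
  have hr := hS.r
  have he := hS.e
  have he' : ∀ v ∈ S, v ∈ R → v ≠ y → v ≠ G.e y → G.e v ∈ S := by
    intro v hv hvR h1 h2
    apply he v hv
    rintro (h3 | h3 | h3)
    · exact hd v hvR h3
    · exact h1 h3
    · exact h2 h3
  refine h S ⟨?_, hr⟩ hne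
  intro v hv hvD
  by_cases h1 : v = y
  · subst h1
    exact cy_iff hR hy hr he' hv
  by_cases h2 : v = G.e y
  · subst h2
    have h3 := cy_iff (y := G.e y) hR (hR.e _ hy) hr
      (fun v hv hvR h1 h2 => he' v hv hvR (by rwa [G.e2] at h2) h1) hv
    exact h3
  · apply he v hv
    rintro (h3 | h3 | h3)
    · exact hvD h3
    · exact h1 h3
    · exact h2 h3

theorem ecl_union {G : Gr V n} {D : Set V} (hD : Ecl G D) (y : V) : Ecl G (D ∪ {y, G.e y}) :=
  hD.union (ecl_pair G y)

theorem ncard_union [Finite V] {G : Gr V n} {D : Set V} (hD : Ecl G D) {y : V}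
    (hy : y ∉ D) : (D ∪ {y, G.e y}).ncard = D.ncard + 2 := by
  have h1 : G.e y ∉ D := fun h => hy (by
    have := hD _ h
    rwa [G.e2] at this)
  have h2 : Disjoint D {y, G.e y} := by
    rw [Set.disjoint_left]
    rintro v hv (h3 | h3)
    · exact hy (h3 ▸ hv)
    · exact h1 (h3 ▸ hv)
  rw [Set.ncard_union_eq h2 (Set.toFinite _) (Set.toFinite _), Set.ncard_pair (G.e1 y).symm]

/-- **A tree has no cycle.** -/
theorem no_cy [Finite V] {G : Gr V n} {D R : Set V} (hD : Ecl G D) (h : CD G D)
    (hc : Nat.card V < 4 * n + 3 * D.ncard) (hR : Cy G R) (hd : ∀ v ∈ R, v ∉ D) : R = ∅ := by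
  by_contra hne
  rw [← Ne, ← Set.nonempty_iff_ne_empty] at hne
  obtain ⟨y, hy⟩ := hne
  have h1 := euler (ecl_union hD y) (cd_remove h hR hd hy)
  rw [ncard_union hD (hd y hy)] at h1
  omega

/-! ### An edge which can be removed lies on a cycle -/

/-- The number of half-edges modulo 2 of a vertex. -/
theorem delta_sum [DecidableEq V] (G : Gr V n) (v w : V) :
    ((if w = v then 1 else 0) + (if G.r w = v then 1 else 0) +
      (if G.r (G.r w) = v then 1 else 0) : ZMod 2) = open Classical in if G.vt v w then 1 else 0 := by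
  classical
  by_cases hw : G.r w = w
  · rw [hw, hw]
    by_cases h : w = v
    · have h1 : G.vt v w := Or.inl h
      rw [if_pos h, if_pos h1]
      decide
    · have h1 : ¬ G.vt v w := by
        intro h2
        apply h
        rcases vt_symm' h2 with h3 | h3 | h3
        · exact h3.symm
        · rw [h3, hw]
        · rw [h3, hw, hw]
      rw [if_neg h, if_neg h1]
      decide
  · have h2 : G.r (G.r w) ≠ w := fun h => hw (G.r2 h)
    have h3 : G.r (G.r w) ≠ G.r w := fun h => hw (G.r_inj h)
    by_cases k1 : w = v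
    · have hv : G.vt v w := Or.inl k1
      rw [if_pos k1, if_neg fun h => hw (h.trans k1.symm), if_neg fun h => h2 (h.trans k1.symm),
        if_pos hv]
      decide
    by_cases k2 : G.r w = v
    · have hv : G.vt v w := by
        refine Or.inr (Or.inr ?_)
        rw [← k2, G.r3]
      rw [if_neg k1, if_pos k2, if_neg fun h => h3 (h.trans k2.symm), if_pos hv]
      decide
    by_cases k3 : G.r (G.r w) = v
    · have hv : G.vt v w := by
        refine Or.inr (Or.inl ?_)
        rw [← k3, G.r3]
      rw [if_neg k1, if_neg k2, if_pos k3, if_pos hv]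
      decide
    · have hv : ¬ G.vt v w := by
        intro h
        rcases vt_symm' h with h4 | h4 | h4
        · exact k1 h4.symm
        · exact k2 h4.symm
        · exact k3 h4.symm
      rw [if_neg k1, if_neg k2, if_neg k3, if_neg hv]
      decide

/-- **An edge which can be removed lies on a cycle.** -/
theorem exists_cy_of_cd {G : Gr V n} {D : Set V} (hD : Ecl G D) {h : V} (hh : h ∉ D)
    (hc : CD G (D ∪ {h, G.e h})) : ∃ R, Cy G R ∧ h ∈ R ∧ ∀ v ∈ R, v ∉ D := by
  classical
  have heh : G.e h ∉ D := fun h' => hh (by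
    have := hD _ h'
    rwa [G.e2] at this)
  have hne : G.e h ≠ h := G.e1 h
  -- chains from the vertex of `h`
  have key := hc {v | ∃ a : V → ZMod 2, (∀ w, a (G.e w) = a w) ∧ (∀ w ∈ D, a w = 0) ∧ a h = 0 ∧
      ∀ w, a w + a (G.r w) + a (G.r (G.r w)) =
        (if G.vt h w then 1 else 0) + (if G.vt v w then 1 else 0)} ⟨
    (by
      rintro v ⟨a, h1, h2, h3, h4⟩ hv
      have k1 : v ∉ D := fun h' => hv (Or.inl h')
      have k2 : v ≠ h := fun h' => hv (Or.inr (Or.inl h'))
      have k3 : v ≠ G.e h := fun h' => hv (Or.inr (Or.inr h'))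
      refine ⟨fun w => a w + ((if w = v then 1 else 0) + if w = G.e v then 1 else 0),
        fun w => ?_, fun w hw => ?_, ?_, fun w => ?_⟩
      · show a (G.e w) + _ = a w + _
        rw [h1]
        congr 1
        have e1 : (G.e w = v) ↔ w = G.e v :=
          ⟨fun h => by rw [← h, G.e2], fun h => by rw [h, G.e2]⟩
        have e2 : (G.e w = G.e v) ↔ w = v := ⟨fun h => G.e_inj h, fun h => by rw [h]⟩
        simp only [e1, e2]
        rw [add_comm]
      · show a w + _ = 0
        have e1 : w ≠ v := fun h => k1 (h ▸ hw)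
        have e2 : w ≠ G.e v := fun h => k1 (by
          have := hD w hw
          rwa [h, G.e2] at this)
        rw [h2 w hw, if_neg e1, if_neg e2]
        decide
      · show a h + _ = 0
        have e2 : h ≠ G.e v := fun h' => k3 (by rw [h', G.e2])
        rw [h3, if_neg (Ne.symm k2), if_neg e2]
        decide
      · show (a w + _) + (a (G.r w) + _) + (a (G.r (G.r w)) + _) = _
        have e1 := h4 w
        have e2 := delta_sum G v w
        have e3 := delta_sum G (G.e v) w
        have e4 : ∀ x1 x2 x3 y1 y2 y3 z1 z2 z3 p q t : ZMod 2, x1 + x2 + x3 = p + q →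
            y1 + y2 + y3 = q → z1 + z2 + z3 = t →
            (x1 + (y1 + z1)) + (x2 + (y2 + z2)) + (x3 + (y3 + z3)) = p + t := by
          intro x1 x2 x3 y1 y2 y3 z1 z2 z3 p q t h1 h2 h3
          have h4 : (x1 + (y1 + z1)) + (x2 + (y2 + z2)) + (x3 + (y3 + z3)) =
            (x1 + x2 + x3) + (y1 + y2 + y3) + (z1 + z2 + z3) := by ring
          rw [h4, h1, h2, h3]
          have h5 : q + q = 0 := CharTwo.add_self_eq_zero q
          rw [add_assoc p q q, h5, add_zero]
        exact e4 _ _ _ _ _ _ _ _ _ _ _ _ e1 e2 e3),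
    (by
      rintro v ⟨a, h1, h2, h3, h4⟩
      refine ⟨a, h1, h2, h3, fun w => ?_⟩
      rw [h4]
      have h5 : G.vt (G.r v) w ↔ G.vt v w := by
        constructor
        · intro h
          have := vt_symm' h
          exact vt_symm' (G.vt_r.1 this)
        · intro h
          have := vt_symm' h
          exact vt_symm' (G.vt_r.2 this)
      by_cases h6 : G.vt v w
      · rw [if_pos h6, if_pos (h5.2 h6)]
      · rw [if_neg h6, if_neg fun h7 => h6 (h5.1 h7)])⟩
    ⟨h, fun _ => 0, fun _ => rfl, fun _ _ => rfl, rfl, fun w => by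
      show (0 + 0 + 0 : ZMod 2) = _
      split_ifs
      · decide
      · decide⟩
  obtain ⟨a, h1, h2, h3, h4⟩ : G.e h ∈ {v | ∃ a : V → ZMod 2, (∀ w, a (G.e w) = a w) ∧
      (∀ w ∈ D, a w = 0) ∧ a h = 0 ∧ ∀ w, a w + a (G.r w) + a (G.r (G.r w)) =
        (if G.vt h w then 1 else 0) + (if G.vt v w then 1 else 0)} := by
    rw [key]
    trivial
  let b : V → ZMod 2 := fun w => a w + ((if w = h then 1 else 0) + if w = G.e h then 1 else 0)
  have b1 : ∀ w, b (G.e w) = b w := by
    intro w
    show a (G.e w) + _ = a w + _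
    rw [h1]
    congr 1
    have e1 : (G.e w = h) ↔ w = G.e h :=
      ⟨fun h => by rw [← h, G.e2], fun h => by rw [h, G.e2]⟩
    have e2 : (G.e w = G.e h) ↔ w = h := ⟨fun h => G.e_inj h, fun h => by rw [h]⟩
    simp only [e1, e2]
    rw [add_comm]
  have b2 : ∀ w, b w + b (G.r w) + b (G.r (G.r w)) = 0 := by
    intro w
    show (a w + _) + (a (G.r w) + _) + (a (G.r (G.r w)) + _) = _
    have e1 := h4 w
    have e2 := delta_sum G h w
    have e3 := delta_sum G (G.e h) w
    have e4 : ∀ x1 x2 x3 y1 y2 y3 z1 z2 z3 p q : ZMod 2, x1 + x2 + x3 = p + q →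
        y1 + y2 + y3 = p → z1 + z2 + z3 = q →
        (x1 + (y1 + z1)) + (x2 + (y2 + z2)) + (x3 + (y3 + z3)) = 0 := by
      intro x1 x2 x3 y1 y2 y3 z1 z2 z3 p q h1 h2 h3
      have h4 : (x1 + (y1 + z1)) + (x2 + (y2 + z2)) + (x3 + (y3 + z3)) =
        (x1 + x2 + x3) + (y1 + y2 + y3) + (z1 + z2 + z3) := by ring
      rw [h4, h1, h2, h3]
      have h5 : p + q + p + q = (p + p) + (q + q) := by ring
      rw [h5, CharTwo.add_self_eq_zero, CharTwo.add_self_eq_zero, add_zero]
    exact e4 _ _ _ _ _ _ _ _ _ _ _ e1 e2 e3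
  have hdec : ∀ p q : ZMod 2, 1 + p + q = 0 → (p = 1 ∧ ¬ q = 1) ∨ (¬ p = 1 ∧ q = 1) := by decide
  refine ⟨{v | b v = 1}, ⟨fun v hv => ?_, fun v hv => ?_⟩, ?_, fun v hv hvD => ?_⟩
  · show b (G.e v) = 1
    rw [b1]
    exact hv
  · have hv' : b v = 1 := hv
    have e1 := b2 v
    rw [hv'] at e1
    exact hdec _ _ e1
  · show a h + _ = 1
    rw [h3, if_pos rfl, if_neg (Ne.symm hne)]
    decide
  · have hv' : b v = 1 := hv
    have e1 : v ≠ h := fun h' => hh (h' ▸ hvD)
    have e2 : v ≠ G.e h := fun h' => heh (h' ▸ hvD)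
    have e3 : b v = 0 := by
      show a v + _ = 0
      rw [h2 v hvD, if_neg e1, if_neg e2]
      decide
    rw [e3] at hv'
    exact absurd hv' (by decide)

end Pool.Agent.SWT45
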