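import Mathlib
import Pool.Agent.SWT45.Tree
import Pool.Agent.SWT65.Stmts

/-!
# Opened edges: connectedness and cycles at the level of the graph
-/

set_option autoImplicit false

namespace Pool.Agent.SWT45

open Equiv Pool.Agent.SWT80 Pool.Agent.SWT93 Pool.Agent.SWT84 Pool.Agent.SWT89 Pool.Agent.SWT65
  Pool.Agent.SWT84.Cy

variable {V : Type} {n : ℕ}

/-- The edges of `a` and `b`. -/
def D2 (G : Gr V n) (a b : V) : Set V := {a, G.e a} ∪ {b, G.e b}

theorem ecl_D2 (G : Gr V n) (a b : V) : Ecl G (D2 G a b) := (ecl_pair G a).union (ecl_pair G b)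

theorem D2_comm (G : Gr V n) (a b : V) : D2 G a b = D2 G b a := Set.union_comm _ _

/-! ### One opened edge -/

/-- The half-edges of the opened graph which correspond to a set of half-edges. -/
def up (G : Gr V n) (h : V) (S : Set V) : Set (V ⊕ Bool) := fun w => match w with
  | Sum.inl v => v ∈ S
  | Sum.inr false => h ∈ S
  | Sum.inr true => G.e h ∈ S

theorem cd_opn {G : Gr V n} {D : Set V} (hD : Ecl G D) {h : V} (hh : h ∉ D) :
    CD (G.opn h) (Sum.inl '' D) ↔ CD G (D ∪ {h, G.e h}) := by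
  have heh : G.e h ∉ D := fun h' => hh (hD.iff.1 h')
  have hm : ∀ v : V, (Sum.inl v : V ⊕ Bool) ∈ Sum.inl '' D ↔ v ∈ D := fun v =>
    Sum.inl_injective.mem_set_image
  have hm2 : ∀ t : Bool, (Sum.inr t : V ⊕ Bool) ∉ Sum.inl '' D := by
    rintro t ⟨v, _, hv⟩
    cases hv
  constructor
  · intro hc S hS hne
    have h1 := hc (up G h S) ⟨?_, ?_⟩ ?_
    · ext v
      constructor
      · intro _; trivial
      · intro _
        have h2 : (Sum.inl v : V ⊕ Bool) ∈ up G h S := by rw [h1]; trivial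
        exact h2
    · rintro (v | t) hv hvD
      · have hvS : v ∈ S := hv
        by_cases k1 : v = h
        · subst k1
          rw [G.opn_e_h]
          exact hvS
        by_cases k2 : v = G.e h
        · rw [k2, G.opn_e_eh]
          show G.e h ∈ S
          rw [← k2]
          exact hvS
        rw [G.opn_e_o h k1 k2]
        apply hS.e v hvS
        rintro (h3 | h3 | h3)
        · exact hvD ((hm v).2 h3)
        · exact k1 h3
        · exact k2 h3
      · cases t
        · exact hv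
        · exact hv
    · rintro (v | t) hv
      · exact hS.r v hv
      · exact hv
    · obtain ⟨v, hv⟩ := hne
      exact ⟨Sum.inl v, hv⟩
  · intro hc S hS hne
    have h1 := hc (Sum.inl ⁻¹' S) ⟨?_, ?_⟩ ?_
    · have hl : ∀ v : V, (Sum.inl v : V ⊕ Bool) ∈ S := by
        intro v
        have h2 : v ∈ (Sum.inl ⁻¹' S : Set V) := by rw [h1]; trivial
        exact h2
      ext w
      constructor
      · intro _; trivial
      · intro _
        rcases w with v | t
        · exact hl v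
        · cases t
          · have h2 := hS.e _ (hl h) (fun h' => hh ((hm h).1 h'))
            rwa [G.opn_e_h] at h2
          · have h2 := hS.e _ (hl (G.e h)) (fun h' => heh ((hm _).1 h'))
            rwa [G.opn_e_eh] at h2
    · intro v hv hvD
      have k1 : v ≠ h := fun h' => hvD (Or.inr (Or.inl h'))
      have k2 : v ≠ G.e h := fun h' => hvD (Or.inr (Or.inr h'))
      have h2 := hS.e (Sum.inl v) hv (fun h' => hvD (Or.inl ((hm v).1 h')))
      rw [G.opn_e_o h k1 k2] at h2
      exact h2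
    · intro v hv
      exact hS.r (Sum.inl v) hv
    · obtain ⟨w, hw⟩ := hne
      rcases w with v | t
      · exact ⟨v, hw⟩
      · have h2 := hS.e _ hw (hm2 t)
        cases t
        · exact ⟨h, h2⟩
        · exact ⟨G.e h, h2⟩

theorem cy_opn {G : Gr V n} {h : V} {S : Set (V ⊕ Bool)} :
    Cy (G.opn h) S ↔ ∃ R, S = Sum.inl '' R ∧ Cy G R ∧ h ∉ R := by
  have hm : ∀ (R : Set V) (v : V), (Sum.inl v : V ⊕ Bool) ∈ Sum.inl '' R ↔ v ∈ R := fun R v =>
    Sum.inl_injective.mem_set_image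
  constructor
  · intro hS
    have hr : ∀ t, (Sum.inr t : V ⊕ Bool) ∉ S := fun t ht => hS.ne_leg ht rfl
    have hh : (Sum.inl h : V ⊕ Bool) ∉ S := by
      intro h1
      have h2 := hS.e _ h1
      rw [G.opn_e_h] at h2
      exact hr _ h2
    have heh : (Sum.inl (G.e h) : V ⊕ Bool) ∉ S := by
      intro h1
      have h2 := hS.e _ h1
      rw [G.opn_e_eh] at h2
      exact hr _ h2
    refine ⟨Sum.inl ⁻¹' S, ?_, ⟨fun v hv => ?_, fun v hv => ?_⟩, hh⟩
    · ext w
      constructor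
      · intro hw
        rcases w with v | t
        · exact ⟨v, hw, rfl⟩
        · exact absurd hw (hr t)
      · rintro ⟨v, hv, rfl⟩
        exact hv
    · have k1 : v ≠ h := fun h' => hh (h' ▸ hv)
      have k2 : v ≠ G.e h := fun h' => heh (h' ▸ hv)
      have h2 := hS.e (Sum.inl v) hv
      rw [G.opn_e_o h k1 k2] at h2
      exact h2
    · exact hS.two (Sum.inl v) hv
  · rintro ⟨R, rfl, hR, hh⟩
    have heh : G.e h ∉ R := fun h' => hh (hR.e_iff.1 h')
    refine ⟨?_, ?_⟩
    · rintro _ ⟨v, hv, rfl⟩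
      have k1 : v ≠ h := fun h' => hh (h' ▸ hv)
      have k2 : v ≠ G.e h := fun h' => heh (h' ▸ hv)
      rw [G.opn_e_o h k1 k2, hm]
      exact hR.e v hv
    · rintro _ ⟨v, hv, rfl⟩
      show ((Sum.inl (G.r v) : V ⊕ Bool) ∈ Sum.inl '' R ∧
        (Sum.inl (G.r (G.r v)) : V ⊕ Bool) ∉ Sum.inl '' R) ∨
        ((Sum.inl (G.r v) : V ⊕ Bool) ∉ Sum.inl '' R ∧
        (Sum.inl (G.r (G.r v)) : V ⊕ Bool) ∈ Sum.inl '' R)
      rw [hm, hm]
      exact hR.two v hv

/-! ### Two opened edges -/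

theorem D2_opn {G : Gr V n} {h k : V} (h1 : k ≠ h) (h2 : k ≠ G.e h) :
    (Sum.inl '' {k, G.e k} : Set (V ⊕ Bool)) = {Sum.inl k, (G.opn h).e (Sum.inl k)} := by
  rw [G.opn_e_o h h1 h2, Set.image_pair]

theorem conn_opn2 {G : Gr V n} {h k : V} (h1 : k ≠ h) (h2 : k ≠ G.e h) :
    SWT93.GConn (opn2 G h k) ↔ CD G (D2 G h k) := by
  have e1 : SWT93.GConn (opn2 G h k) ↔
      CD ((G.opn h).opn (Sum.inl k)) (Sum.inl '' (∅ : Set (V ⊕ Bool))) := by
    rw [Set.image_empty]
    exact SWT89.gconn_iff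
  have e2 := cd_opn (G := G.opn h) (D := ∅) (fun v hv => hv.elim) (h := Sum.inl k)
    (fun h => h)
  have e3 := cd_opn (G := G) (D := {k, G.e k}) (ecl_pair G k) (h := h) (by
    rintro (h3 | h3)
    · exact h1 h3.symm
    · have h3' : h = G.e k := h3
      apply h2
      rw [h3', G.e2])
  rw [e1, e2, Set.empty_union, ← D2_opn h1 h2, e3, D2_comm]
  rfl

/-- The two opened edges are different. -/
theorem ne_of_conn {G : Gr V n} {h k : V} (hc : SWT93.GConn (opn2 G h k)) :
    k ≠ h ∧ k ≠ G.e h := by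
  have key : ∀ t : Bool, (G.opn h).e (Sum.inl k) = Sum.inr t → False := by
    intro t ht
    have h1 := hc {Sum.inl (Sum.inr t), Sum.inr true} ⟨?_, ?_⟩ ⟨_, Or.inl rfl⟩
    · have h2 : (Sum.inl (Sum.inl k) : (V ⊕ Bool) ⊕ Bool) ∈
        ({Sum.inl (Sum.inr t), Sum.inr true} : Set ((V ⊕ Bool) ⊕ Bool)) := by rw [h1]; trivial
      rcases h2 with h2 | h2
      · cases h2
      · cases h2
    · rintro w (hw | hw)
      · right
        rw [hw]
        show ((G.opn h).opn (Sum.inl k)).e (Sum.inl (Sum.inr t)) = _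
        rw [← ht, Gr.opn_e_eh]
      · left
        have hw' : w = Sum.inr true := hw
        rw [hw']
        show Sum.inl ((G.opn h).e (Sum.inl k)) = _
        rw [ht]
    · rintro w (hw | hw)
      · left
        rw [hw]
        rfl
      · right
        have hw' : w = Sum.inr true := hw
        rw [hw']
        rfl
  constructor
  · rintro rfl
    exact key false (G.opn_e_h k)
  · intro h2
    exact key true (by rw [h2]; exact G.opn_e_eh h)

theorem card_opn2 [Finite V] : Nat.card ((V ⊕ Bool) ⊕ Bool) = Nat.card V + 4 := by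
  rw [Nat.card_sum, Nat.card_sum, Nat.card_eq_fintype_card (α := Bool), Fintype.card_bool]

/-- The graph with two opened edges is connected with one loop. -/
theorem one_iff [Finite V] {G : Gr V n} {h k : V} : One (opn2 G h k) ↔
    k ≠ h ∧ k ≠ G.e h ∧ CD G (D2 G h k) ∧ Nat.card V = 4 * n + 12 := by
  constructor
  · intro h1
    obtain ⟨h2, h3⟩ := ne_of_conn h1.conn
    refine ⟨h2, h3, (conn_opn2 h2 h3).1 h1.conn, ?_⟩
    have h4 := h1.card
    rw [card_opn2] at h4
    omega
  · rintro ⟨h2, h3, h4, h5⟩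
    refine ⟨(conn_opn2 h2 h3).2 h4, ?_⟩
    rw [card_opn2]
    omega

/-- The cycles of the graph with two opened edges. -/
theorem cy_opn2 {G : Gr V n} {h k : V} {S : Set ((V ⊕ Bool) ⊕ Bool)} : Cy (opn2 G h k) S ↔
    ∃ R, S = Sum.inl '' (Sum.inl '' R) ∧ Cy G R ∧ ∀ v ∈ R, v ∉ D2 G h k := by
  have hm : ∀ (R : Set V) (v : V), (Sum.inl v : V ⊕ Bool) ∈ Sum.inl '' R ↔ v ∈ R := fun R v =>
    Sum.inl_injective.mem_set_image
  constructor
  · intro hS
    obtain ⟨R1, rfl, hR1, hk⟩ := cy_opn.1 hS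
    obtain ⟨R, rfl, hR, hh⟩ := cy_opn.1 hR1
    rw [hm] at hk
    refine ⟨R, rfl, hR, ?_⟩
    rintro v hv ((h3 | h3) | (h3 | h3))
    · exact hh (h3 ▸ hv)
    · exact hh (hR.e_iff.1 (h3 ▸ hv))
    · exact hk (h3 ▸ hv)
    · exact hk (hR.e_iff.1 (h3 ▸ hv))
  · rintro ⟨R, rfl, hR, hd⟩
    refine cy_opn.2 ⟨Sum.inl '' R, rfl, cy_opn.2 ⟨R, rfl, hR, ?_⟩, ?_⟩
    · exact fun h3 => hd _ h3 (Or.inl (Or.inl rfl))
    · rw [hm]
      exact fun h3 => hd _ h3 (Or.inr (Or.inl rfl))

/-- **An opened edge may be exchanged for an edge of the rim.** -/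
theorem one_swap [Finite V] {G : Gr V n} {h k : V} {R : Set V} (h1 : One (opn2 G h k))
    (hR : Cy G R) (hd : ∀ v ∈ R, v ∉ D2 G h k) {y : V} (hy : y ∈ R) : One (opn2 G h y) ∧
      ∃ R', Cy G R' ∧ k ∈ R' ∧ ∀ v ∈ R', v ∉ D2 G h y := by
  obtain ⟨k1, k2, hc, hV⟩ := one_iff.1 h1
  have h3 := cd_remove hc hR hd hy
  have hyd := hd y hy
  have y1 : y ≠ h := fun h' => hyd (Or.inl (Or.inl h'))
  have y2 : y ≠ G.e h := fun h' => hyd (Or.inl (Or.inr h'))
  have y3 : y ≠ k := fun h' => hyd (Or.inr (Or.inl h'))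
  have y4 : y ≠ G.e k := fun h' => hyd (Or.inr (Or.inr h'))
  have h4 : CD G (D2 G h y ∪ {k, G.e k}) := by
    refine h3.mono ?_
    rintro v ((h5 | h5) | h5)
    · exact Or.inl (Or.inl h5)
    · exact Or.inr h5
    · exact Or.inl (Or.inr h5)
  refine ⟨one_iff.2 ⟨y1, y2, h4.mono Set.subset_union_left, hV⟩, ?_⟩
  refine exists_cy_of_cd (ecl_D2 G h y) ?_ h4
  rintro ((h5 | h5) | (h5 | h5))
  · exact k1 h5
  · exact k2 h5
  · exact y3 h5.symm
  · have h5' : k = G.e y := h5
    apply y4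
    rw [h5', G.e2]

theorem opn2_e {G : Gr V n} {h k v : V} (hv : v ∉ D2 G h k) :
    (opn2 G h k).e (Sum.inl (Sum.inl v)) = Sum.inl (Sum.inl (G.e v)) := by
  have k1 : v ≠ h := fun h' => hv (Or.inl (Or.inl h'))
  have k2 : v ≠ G.e h := fun h' => hv (Or.inl (Or.inr h'))
  have k3 : v ≠ k := fun h' => hv (Or.inr (Or.inl h'))
  have k4 : v ≠ G.e k := fun h' => hv (Or.inr (Or.inr h'))
  have e1 : (G.opn h).e (Sum.inl v) = Sum.inl (G.e v) := G.opn_e_o h k1 k2
  show ((G.opn h).opn (Sum.inl k)).e (Sum.inl (Sum.inl v)) = _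
  rw [Gr.opn_e_o, e1]
  · exact fun h' => k3 (Sum.inl.inj h')
  · intro h'
    apply k4
    have h2 : (G.opn h).e (Sum.inl v) = Sum.inl k := by
      rw [h', Gr.e2]
    rw [e1] at h2
    rw [← Sum.inl.inj h2, G.e2]

/-- On a wheel the third half-edge of a vertex leads to a leg or is opened. -/
theorem base_leg [Finite V] {G : Gr V (n + 1)} {h k : V} {R : Set V} (h1 : One (opn2 G h k))
    (hR : Cy G R) (hne : R.Nonempty) (hd : ∀ v ∈ R, v ∉ D2 G h k)
    (ht : ∀ v, v ∉ R → v ∉ D2 G h k → G.r v ∈ R → On G R (G.e v) ∨ G.r (G.e v) = G.e v) :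
    SWT93.NoCherry (opn2 G h k) ∧
      ∀ v, v ∉ R → v ∉ D2 G h k → G.r v ∈ R → G.r (G.e v) = G.e v := by
  have hm : ∀ (R : Set V) (v : V), (Sum.inl v : V ⊕ Bool) ∈ Sum.inl '' R ↔ v ∈ R := fun R v =>
    Sum.inl_injective.mem_set_image
  have hm2 : ∀ v : V, (Sum.inl (Sum.inl v) : (V ⊕ Bool) ⊕ Bool) ∈ Sum.inl '' (Sum.inl '' R) ↔
      v ∈ R := fun v => by rw [Sum.inl_injective.mem_set_image, hm]
  have hS : Cy (opn2 G h k) (Sum.inl '' (Sum.inl '' R)) := cy_opn2.2 ⟨R, rfl, hR, hd⟩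
  have hno : SWT93.NoCherry (opn2 G h k) := by
    apply nocherry_of_cy h1.conn hS ((hne.image _).image _)
    rintro ((v | t) | t) hv hr
    · rw [hm2] at hv
      have hr' : G.r v ∈ R := (hm2 _).1 hr
      by_cases hvD : v ∈ D2 G h k
      · right
        have key : ∃ w : Bool, (opn2 G h k).e (Sum.inl (Sum.inl v)) = Sum.inr w ∨
            (opn2 G h k).e (Sum.inl (Sum.inl v)) = Sum.inl (Sum.inr w) := by
          have k12 := ne_of_conn h1.conn
          by_cases hvk : v = k
          · refine ⟨false, Or.inl ?_⟩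
            rw [hvk]
            exact Gr.opn_e_h _ _
          by_cases hvk' : v = G.e k
          · refine ⟨true, Or.inl ?_⟩
            have e1 : (G.opn h).e (Sum.inl k) = Sum.inl v := by
              rw [hvk']
              exact G.opn_e_o h k12.1 k12.2
            show ((G.opn h).opn (Sum.inl k)).e (Sum.inl (Sum.inl v)) = _
            rw [← e1]
            exact Gr.opn_e_eh _ _
          have hne1 : (Sum.inl v : V ⊕ Bool) ≠ Sum.inl k := fun h' => hvk (Sum.inl.inj h')
          have hne2 : (Sum.inl v : V ⊕ Bool) ≠ (G.opn h).e (Sum.inl k) := by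
            rw [G.opn_e_o h k12.1 k12.2]
            exact fun h' => hvk' (Sum.inl.inj h')
          rcases hvD with (h3 | h3) | (h3 | h3)
          · refine ⟨false, Or.inr ?_⟩
            show ((G.opn h).opn (Sum.inl k)).e (Sum.inl (Sum.inl v)) = _
            rw [Gr.opn_e_o _ _ hne1 hne2, h3, G.opn_e_h]
          · have h3' : v = G.e h := h3
            refine ⟨true, Or.inr ?_⟩
            show ((G.opn h).opn (Sum.inl k)).e (Sum.inl (Sum.inl v)) = _
            rw [Gr.opn_e_o _ _ hne1 hne2, h3', G.opn_e_eh]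
          · exact absurd h3 hvk
          · exact absurd h3 hvk'
        obtain ⟨w, hw | hw⟩ := key
        · rw [hw]
          rfl
        · rw [hw]
          rfl
      · rw [opn2_e hvD]
        rcases ht v hv hvD hr' with h3 | h3
        · left
          rcases h3 with h3 | h3
          · exact Or.inl ((hm2 _).2 h3)
          · exact Or.inr ((hm2 _).2 h3)
        · right
          show (Sum.inl (Sum.inl (G.r (G.e v))) : (V ⊕ Bool) ⊕ Bool) = _
          rw [h3]
    · exact absurd hr hv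
    · exact absurd hr hv
  refine ⟨hno, fun v hv hvD hr => ?_⟩
  have hb := SWT49.psi_bij (opn2 G h k) h1.conn (by omega) h1.card hno
  have hr2 : G.r (G.r v) ∈ R := hR.rr_of hv hr
  have hxe : ∀ i, SWT49.xe (opn2 G h k) i ∉ (Sum.inl '' (Sum.inl '' R) : Set ((V ⊕ Bool) ⊕ Bool)) := by
    intro i hi
    have h3 := hS.e _ hi
    rw [SWT49.e_xe] at h3
    exact hS.ne_leg h3 (Gr.r_leg _ i)
  obtain ⟨t, ht'⟩ := hb.2 (Sum.inl (Sum.inl v))
  rcases t with ⟨i, j⟩ | i
  · fin_cases j
    · have e1 : SWT49.xe (opn2 G h k) i = Sum.inl (Sum.inl v) := ht'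
      have e2 : (opn2 G h k).e (Sum.inl (Sum.inl v)) = (opn2 G h k).leg i := by
        rw [← e1, SWT49.e_xe]
      have e3 := Gr.r_leg (opn2 G h k) i
      rw [← e2, opn2_e hvD] at e3
      exact Sum.inl.inj (Sum.inl.inj e3)
    · exfalso
      have e1 : (opn2 G h k).r (SWT49.xe (opn2 G h k) i) = Sum.inl (Sum.inl v) := ht'
      apply hxe i
      have e2 : SWT49.xe (opn2 G h k) i = Sum.inl (Sum.inl (G.r (G.r v))) := by
        rw [← (opn2 G h k).r3 (SWT49.xe (opn2 G h k) i), e1]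
        rfl
      rw [e2]
      exact (hm2 _).2 hr2
    · exfalso
      have e1 : (opn2 G h k).r ((opn2 G h k).r (SWT49.xe (opn2 G h k) i)) =
        Sum.inl (Sum.inl v) := ht'
      apply hxe i
      have e2 : SWT49.xe (opn2 G h k) i = Sum.inl (Sum.inl (G.r v)) := by
        rw [← (opn2 G h k).r3 (SWT49.xe (opn2 G h k) i), e1]
        rfl
      rw [e2]
      exact (hm2 _).2 hr
  · exfalso
    have e1 : (opn2 G h k).leg i = Sum.inl (Sum.inl v) := ht'
    have e2 := Gr.r_leg (opn2 G h k) i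
    rw [e1] at e2
    have e3 : G.r v = v := Sum.inl.inj (Sum.inl.inj e2)
    rw [e3] at hr
    exact hv hr

end Pool.Agent.SWT45
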