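import Mathlib
import Pool.Agent.SWT45.Opc
import Pool.Agent.SWT67.Opn2

/-!
# Exchange of an opened edge with an edge of the rim: the induction on the length of the rim
-/

set_option autoImplicit false

namespace Pool.Agent.SWT45

open Equiv Pool.Agent.SWT80 Pool.Agent.SWT93 Pool.Agent.SWT84 Pool.Agent.SWT89 Pool.Agent.SWT65
  Pool.Agent.SWT84.Cy

variable {M : Type} [AddCommGroup M] {n : ℕ}

/-- IHX of the graphs with two opened edges. -/
theorem loc2 {V : Type} {I J X : Gr V n} {a b x : V} (hL : Gr.Loc I J X x) (hxa : x ≠ a)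
    (hxa' : x ≠ I.e a) (hxb : x ≠ b) (hxb' : x ≠ I.e b) (hab : b ≠ a) (hab' : b ≠ I.e a) :
    Gr.Loc (opn2 I a b) (opn2 J a b) (opn2 X a b) (Sum.inl (Sum.inl x)) := by
  have h1 := SWT67.opn_loc hxa hxa' hL
  refine SWT67.opn_loc (fun h => hxb (Sum.inl.inj h)) (fun h => hxb' ?_) h1
  rw [I.opn_e_o a hab hab'] at h
  exact Sum.inl.inj h

/-- The exchange of an opened edge follows from the case of the wheels. -/
theorem exch_of_base {W : (V : Type) → Gr V (n + 2 + 2) → M} (hW : Rel W)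
    (base : ∀ (V : Type) [Finite V] (G : Gr V n) (R : Set V) (h k : V), One (opn2 G h k) →
      Cy G R → R.Nonempty → (∀ v ∈ R, v ∉ D2 G h k) →
      (∀ v, v ∉ R → v ∉ D2 G h k → G.r v ∈ R → On G R (G.e v) ∨ G.r (G.e v) = G.e v) →
      ∀ y ∈ R, W _ (opn2 G h k) = W _ (opn2 G h y)) : Exch W := by
  intro V _ G h k k' S h1 hS hk'
  obtain ⟨k1, k2, hc, hV⟩ := one_iff.1 h1
  obtain ⟨R, rfl, hR, hd⟩ := cy_opn2.1 hS
  have hk : k' ∈ R := by
    rw [Sum.inl_injective.mem_set_image, Sum.inl_injective.mem_set_image] at hk'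
    exact hk'
  have key := rim_ind_D (V := V) (n := n) (D2 G h k) (fun G' R' => G'.e = G.e → CD G' (D2 G h k) →
    (∀ v ∈ R', v ∉ D2 G h k) → ∀ y ∈ R', W _ (opn2 G' h k) = W _ (opn2 G' h y)) ?_ ?_ hR ⟨k', hk⟩
  · exact key rfl hc hd k' hk
  · intro G' R' hR' hne ht he hc' hd' y hy
    have hD : D2 G h k = D2 G' h k := by
      unfold D2
      rw [he]
    rw [hD] at hc' hd' ht
    exact base V G' R' h k (one_iff.2 ⟨k1, by rw [he]; exact k2, hc', hV⟩) hR' hne hd' ht y hy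
  · intro I J X x R' hR' _ hL hx hxD _ _ hJ hX he hc' hd' y hy
    have hD : Ecl I (D2 G h k) := by
      have : D2 G h k = D2 I h k := by
        unfold D2
        rw [he]
      rw [this]
      exact ecl_D2 I h k
    have hd2 : ∀ v ∈ R' ∪ {x, I.e x}, v ∉ D2 G h k := by
      rintro v (hv | hv | hv)
      · exact hd' v hv
      · rw [hv]
        exact hxD
      · have hv' : v = I.e x := hv
        rw [hv']
        exact fun h => hxD (hD.iff.1 h)
    have h1 := hJ (by rw [hL.eJ, he]) ((cd_J hL hD hxD).2 hc') hd2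
    have h2 := hX (by rw [hL.eX, he]) ((cd_X hL hD hxD).2 hc') hd2
    have k3 : x ≠ h := fun h => hxD (Or.inl (Or.inl h))
    have k4 : x ≠ I.e h := fun h => hxD (Or.inl (Or.inr (by rw [h, he]; rfl)))
    have k5 : x ≠ k := fun h => hxD (Or.inr (Or.inl h))
    have k6 : x ≠ I.e k := fun h => hxD (Or.inr (Or.inr (by rw [h, he]; rfl)))
    have k7 : x ≠ y := fun h => hx (h ▸ hy)
    have k8 : x ≠ I.e y := fun h => hx (h ▸ hR'.e _ hy)
    have k9 : y ≠ h := fun h => hd' y hy (Or.inl (Or.inl h))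
    have k10 : y ≠ I.e h := fun h => hd' y hy (Or.inl (Or.inr (by rw [h, he]; rfl)))
    have e1 := hW.ihx _ _ _ _ _ (loc2 hL k3 k4 k7 k8 k9 k10)
    have e2 := hW.ihx _ _ _ _ _ (loc2 hL k3 k4 k5 k6 k1 (by rw [he]; exact k2))
    rw [e1, e2, h1 y (Or.inl hy), h2 y (Or.inl hy)]

end Pool.Agent.SWT45
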