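import Pool.Agent.SWT45.Defs

/-!
# The finite identities of the label systems of `osp(1|2)` and `gl(3)`
-/

set_option autoImplicit false

namespace Pool.Agent.SWT45

/-- The class of a label. -/
def ec {B : Type} (cl : B → ZMod 3) : Option B → ZMod 3
  | none => 0
  | some b => cl b

theorem osp_ok : osp.Ok where
  du_du := by decide
  odd_du := by decide
  pos_du := by decide
  cyc := by decide +kernel
  par := by decide +kernel

theorem osp_cl : ∀ a b c : Option (Fin 5), osp.T a b c ≠ 0 → ec ocl a + ec ocl b + ec ocl c = 0 := by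
  decide +kernel

theorem osp_as : ∀ a b c : Option (Fin 5), ¬ (a = none ∧ b = none ∧ c = none) →
    osp.T a c b = if osp.odd a || (osp.odd b || osp.odd c) then osp.T a b c
      else - osp.T a b c := by
  decide +kernel

theorem gl_ok : gl.Ok where
  du_du := by decide
  odd_du := by decide
  pos_du := by decide
  cyc := by decide +kernel
  par := by decide +kernel

theorem gl_cl : ∀ a b c : Option (Fin 3 × Fin 3), gl.T a b c ≠ 0 →
    ec gcl a + ec gcl b + ec gcl c = 0 := by
  decide +kernel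

theorem gl_as : ∀ a b c : Option (Fin 3 × Fin 3), ¬ (a = none ∧ b = none ∧ c = none) →
    gl.T a c b = if gl.odd a || (gl.odd b || gl.odd c) then gl.T a b c else - gl.T a b c := by
  decide +kernel

theorem osp_zero : ∀ a b c : Option (Fin 5), (ec ocl a = 0 ∧ ec ocl b = 0 ∧ ec ocl c = 0 ∧
    ¬ (a = none ∧ b = none ∧ c = none)) → osp.T a b c = 0 := by
  decide +kernel

theorem gl_zero : ∀ a b c : Option (Fin 3 × Fin 3), (ec gcl a = 0 ∧ ec gcl b = 0 ∧ ec gcl c = 0 ∧
    ¬ (a = none ∧ b = none ∧ c = none)) → gl.T a b c = 0 := by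
  decide +kernel

/-! ### The local sums over all labels of the edge -/

section

variable {B : Type} [Fintype B]

def fI (S : LS (Option B)) (a b c d : Option B) : ℤ :=
  ∑ l : B, sI (S.odd a) (S.odd b) (S.odd c) (S.odd d) (S.pos (some l)) *
    (S.T (some l) a b * S.T (S.du (some l)) c d)

def fJ (S : LS (Option B)) (a b c d : Option B) : ℤ :=
  ∑ l : B, sJ (S.odd a) (S.odd b) (S.odd c) (S.odd d) (S.pos (some l)) *
    (S.T (some l) b c * S.T (S.du (some l)) d a)

def fX (S : LS (Option B)) (a b c d : Option B) : ℤ :=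
  ∑ l : B, sX (S.odd a) (S.odd b) (S.odd c) (S.odd d) (S.pos (some l)) *
    (S.T (some l) a c * S.T (S.du (some l)) d b)

/-- One of the four half-edges belongs to a leg, and the classes of the other three are not zero. -/
def bad (cl : B → ZMod 3) (a b c d : Option B) : Prop :=
  (a = none ∧ ec cl b ≠ 0 ∧ ec cl c ≠ 0 ∧ ec cl d ≠ 0) ∨
  (b = none ∧ ec cl a ≠ 0 ∧ ec cl c ≠ 0 ∧ ec cl d ≠ 0) ∨
  (c = none ∧ ec cl a ≠ 0 ∧ ec cl b ≠ 0 ∧ ec cl d ≠ 0) ∨
  (d = none ∧ ec cl a ≠ 0 ∧ ec cl b ≠ 0 ∧ ec cl c ≠ 0)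

instance [DecidableEq B] (cl : B → ZMod 3) (a b c d : Option B) : Decidable (bad cl a b c d) := by
  unfold bad
  infer_instance

end

theorem osp_li : ∀ a b c d : Option (Fin 5),
    (¬ bad ocl a b c d → fI osp a b c d - fJ osp a b c d + fX osp a b c d = 0) ∧
    (bad ocl a b c d → fI osp a b c d = - fJ osp a b c d ∧ fI osp a b c d = fX osp a b c d) := by
  decide +kernel

/-- The labels `l` with `T l a b ≠ 0`, for `gl(3)`. -/
def gE : Option (Fin 3 × Fin 3) → Option (Fin 3 × Fin 3) → List ((Fin 3 × Fin 3) × ℤ)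
  | some a, some b => [((b.2, a.1), if a.2 = b.1 then 1 else 0),
      ((a.2, b.1), if b.2 = a.1 then -1 else 0)]
  | none, some b => [((b.2, b.1), gh b (b.2, b.1))]
  | some a, none => [((a.2, a.1), gh (a.2, a.1) a)]
  | none, none => []

theorem gE_spec : ∀ (a b : Option (Fin 3 × Fin 3)) (l : Fin 3 × Fin 3),
    gl.T (some l) a b = ((gE a b).map fun p => if p.1 = l then p.2 else 0).sum := by
  decide +kernel

theorem gE_sum (a b : Option (Fin 3 × Fin 3)) (F : Fin 3 × Fin 3 → ℤ) :
    ∑ l, gl.T (some l) a b * F l = ((gE a b).map fun p => p.2 * F p.1).sum := by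
  simp only [gE_spec]
  induction gE a b with
  | nil => simp
  | cons p t ih =>
    simp only [List.map_cons, List.sum_cons, add_mul, Finset.sum_add_distrib, ih]
    simp

/-- The three local sums of `gl(3)` by lists. -/
def gS (a b c d : Option (Fin 3 × Fin 3)) : ℤ :=
  ((gE a b).map fun p => p.2 * gl.T (some (p.1.2, p.1.1)) c d).sum

theorem gS_spec (a b c d : Option (Fin 3 × Fin 3)) :
    ∑ l : Fin 3 × Fin 3, gl.T (some l) a b * gl.T (gl.du (some l)) c d = gS a b c d := by
  rw [gE_sum a b fun l => gl.T (gl.du (some l)) c d]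
  rfl

theorem fI_gl (a b c d : Option (Fin 3 × Fin 3)) : fI gl a b c d = gS a b c d := by
  rw [← gS_spec]
  refine Finset.sum_congr rfl fun l _ => ?_
  simp [gl, sI]

theorem fJ_gl (a b c d : Option (Fin 3 × Fin 3)) : fJ gl a b c d = gS b c d a := by
  rw [← gS_spec]
  refine Finset.sum_congr rfl fun l _ => ?_
  simp [gl, sJ]

theorem fX_gl (a b c d : Option (Fin 3 × Fin 3)) : fX gl a b c d = gS a c d b := by
  rw [← gS_spec]
  refine Finset.sum_congr rfl fun l _ => ?_
  simp [gl, sX]

theorem gS_li : ∀ a b c d : Option (Fin 3 × Fin 3),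
    (¬ bad gcl a b c d → gS a b c d - gS b c d a + gS a c d b = 0) ∧
    (bad gcl a b c d → gS a b c d = - gS b c d a ∧ gS a b c d = gS a c d b) := by
  decide +kernel

theorem gl_li (a b c d : Option (Fin 3 × Fin 3)) :
    (¬ bad gcl a b c d → fI gl a b c d - fJ gl a b c d + fX gl a b c d = 0) ∧
    (bad gcl a b c d → fI gl a b c d = - fJ gl a b c d ∧ fI gl a b c d = fX gl a b c d) := by
  rw [fI_gl, fJ_gl, fX_gl]
  exact gS_li a b c d

end Pool.Agent.SWT45
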