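import Pool.Agent.SWT45.Stmts
import Pool.Agent.SWT45.Tens

/-!
# AS and IHX for the state sums with a flow
-/

set_option autoImplicit false

namespace Pool.Agent.SWT45

open Equiv Pool.Agent.SWT80
open scoped Classical

section Gen

variable {V : Type} {n : ℕ}

theorem lg_e (G : Gr V n) (v : V) : Lg G (G.e v) ↔ Lg G v := by
  unfold Lg
  rw [G.e2]
  exact or_comm

theorem Flow.lg {G : Gr V n} {φ : V → ZMod 3} (h : Flow G φ) {v : V} (hv : Lg G v) : φ v = 0 := by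
  rcases hv with h1 | h1
  · exact h.leg v h1
  · have h2 := h.leg _ h1
    rw [h.e] at h2
    exact neg_eq_zero.1 h2

/-- Two graphs with the same edges and the same legs have the same `Lg`. -/
theorem lg_congr {G G' : Gr V n} (he : G'.e = G.e) (hl : G'.leg = G.leg) (v : V) :
    Lg G' v ↔ Lg G v := by
  unfold Lg
  rw [G'.fix, G'.fix, G.fix, G.fix, he, hl]

theorem fix_congr {G G' : Gr V n} (hl : G'.leg = G.leg) (v : V) : G'.r v = v ↔ G.r v = v := by
  rw [G'.fix, G.fix, hl]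

/-- The properties of the two label systems. -/
structure Good {B : Type} [Fintype B] (S : LS (Option B)) (cl : B → ZMod 3) : Prop where
  ok : S.Ok
  clz : ∀ a b c, S.T a b c ≠ 0 → ec cl a + ec cl b + ec cl c = 0
  as : ∀ a b c, ¬ (a = none ∧ b = none ∧ c = none) →
    S.T a c b = if S.odd a || (S.odd b || S.odd c) then S.T a b c else - S.T a b c
  li : ∀ a b c d, (¬ bad cl a b c d → fI S a b c d - fJ S a b c d + fX S a b c d = 0) ∧
    (bad cl a b c d → fI S a b c d = - fJ S a b c d ∧ fI S a b c d = fX S a b c d)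
  du_none : S.du none = none
  du_some : ∀ b, ∃ b', S.du (some b) = some b' ∧ cl b' = - cl b
  odd_none : S.odd none = false

section

variable {B : Type} {cl : B → ZMod 3}

theorem al_ec {G : Gr V n} {φ : V → ZMod 3} (hφ : Flow G φ) {v : V} {l : Option B}
    (h : Al cl G φ v l) : ec cl l = φ v := by
  cases l with
  | none => exact (hφ.lg h).symm
  | some b => exact h.2

theorem al_none {G : Gr V n} {φ : V → ZMod 3} {v : V} {l : Option B} (h : Al cl G φ v l) :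
    l = none ↔ Lg G v := by
  cases l with
  | none => exact ⟨fun _ => h, fun _ => rfl⟩
  | some b => exact ⟨fun h' => (Option.some_ne_none b h').elim, fun h' => (h.1 h').elim⟩

end

variable {B : Type} [Fintype B] {S : LS (Option B)} {cl : B → ZMod 3}

theorem adm (hS : Good S cl) {G : Gr V n} {φ : V → ZMod 3} (hφ : Flow G φ) :
    Adm S G (Al cl G φ) := by
  intro v l h
  cases l with
  | none =>
    rw [hS.du_none]
    exact (lg_e G v).2 h
  | some b =>
    obtain ⟨b', h1, h2⟩ := hS.du_some b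
    rw [h1]
    exact ⟨fun h' => h.1 ((lg_e G v).1 h'), by rw [h2, h.2, hφ.e]⟩

theorem al_leg (hS : Good S cl) {G : Gr V n} {φ : V → ZMod 3} (v : V) (l : Option B)
    (hv : G.r v = v) (h : Al cl G φ v l) : S.odd l = false := by
  cases l with
  | none => exact hS.odd_none
  | some b => exact (h.1 (Or.inl hv)).elim

/-- The local sum over the allowed labels is the local sum over all labels. -/
theorem sum_al {G : Gr V n} {φ : V → ZMod 3} {x : V} (hx : ¬ Lg G x)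
    (F : Option B → ℤ) (hF : ∀ b, cl b ≠ φ x → F (some b) = 0) :
    ∑ l ∈ (Finset.univ : Finset (Option B)).filter (Al cl G φ x), F l = ∑ b : B, F (some b) := by
  rw [Finset.sum_filter, Fintype.sum_option]
  have h0 : ¬ Al cl G φ x none := hx
  rw [if_neg h0, zero_add]
  refine Finset.sum_congr rfl fun b _ => ?_
  by_cases hb : cl b = φ x
  · exact if_pos ⟨hx, hb⟩
  · rw [if_neg fun h => hb h.2, hF b hb]

theorem clz' (hS : Good S cl) {b : B} {l l' : Option B} {t : ZMod 3} (h : ec cl l + ec cl l' + t = 0)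
    (hb : cl b ≠ t) : S.T (some b) l l' = 0 := by
  by_contra hc
  have h1 := hS.clz _ _ _ hc
  apply hb
  have h2 : ec cl (some b) = cl b := rfl
  rw [h2] at h1
  linear_combination h1 - h

/-! ### The half-edges at the edge of IHX -/

theorem loc_ne {I : Gr V n} {x : V} (h : Gr.Ok I x) :
    (I.r x ≠ x ∧ I.r x ≠ I.e x) ∧ (I.r (I.r x) ≠ x ∧ I.r (I.r x) ≠ I.e x) ∧
    (I.r (I.e x) ≠ x ∧ I.r (I.e x) ≠ I.e x) ∧
    (I.r (I.r (I.e x)) ≠ x ∧ I.r (I.r (I.e x)) ≠ I.e x) := by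
  refine ⟨⟨h.ix, h.ya.symm⟩, ⟨fun h' => h.ix (I.r2 h'), h.yb.symm⟩, ⟨fun h' => ?_, h.iy⟩,
    ⟨fun h' => ?_, fun h' => h.iy (I.r2 h')⟩⟩
  · have h1 := I.r3 (I.e x)
    rw [h'] at h1
    exact h.yb h1.symm
  · have h1 := I.r3 (I.e x)
    rw [h'] at h1
    exact h.ya h1.symm

theorem loc_lg {I : Gr V n} {x : V} (h : Gr.Ok I x) : ¬ Lg I x := by
  rintro (h1 | h1)
  · exact h.ix h1
  · exact h.iy h1

/-- The flows of `J` and `X` at the ends of the edge. -/
theorem flowJ {I J X : Gr V n} {x : V} (h : Gr.Loc I J X x) {φ ψ : V → ZMod 3} (hψ : Flow J ψ)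
    (hoff : Off I x φ ψ) : φ (I.r (I.r x)) + φ (I.r (I.e x)) + ψ x = 0 ∧
      φ (I.r (I.r (I.e x))) + φ (I.r x) + ψ (I.e x) = 0 := by
  obtain ⟨ha, hb, hc, hd⟩ := loc_ne h.ok
  have h1 := hψ.r x
  have h2 := hψ.r (I.e x)
  rw [h.j1, h.j2, hoff _ hb.1 hb.2, hoff _ hc.1 hc.2] at h1
  rw [h.j4, h.j5, hoff _ hd.1 hd.2, hoff _ ha.1 ha.2] at h2
  constructor
  · linear_combination h1
  · linear_combination h2

theorem flowX {I J X : Gr V n} {x : V} (h : Gr.Loc I J X x) {φ χ : V → ZMod 3} (hχ : Flow X χ)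
    (hoff : Off I x φ χ) : φ (I.r x) + φ (I.r (I.e x)) + χ x = 0 ∧
      φ (I.r (I.r (I.e x))) + φ (I.r (I.r x)) + χ (I.e x) = 0 := by
  obtain ⟨ha, hb, hc, hd⟩ := loc_ne h.ok
  have h1 := hχ.r x
  have h2 := hχ.r (I.e x)
  rw [h.x1, h.x2, hoff _ ha.1 ha.2, hoff _ hc.1 hc.2] at h1
  rw [h.x4, h.x5, hoff _ hd.1 hd.2, hoff _ hb.1 hb.2] at h2
  constructor
  · linear_combination h1
  · linear_combination h2

omit [Fintype B] in
theorem al_off {I J : Gr V n} {x : V} (he : J.e = I.e) (hl : J.leg = I.leg) {φ ψ : V → ZMod 3}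
    (hoff : Off I x φ ψ) (v : V) (h1 : v ≠ x) (h2 : v ≠ I.e x) (l : Option B) :
    Al cl J ψ v l ↔ Al cl I φ v l := by
  cases l with
  | none => exact lg_congr he hl v
  | some b =>
    show (¬ Lg J v ∧ cl b = ψ v) ↔ (¬ Lg I v ∧ cl b = φ v)
    rw [lg_congr he hl v, hoff v h1 h2]

/-- A linear relation follows from the local one. -/
theorem loc3 (H0 : S_loc) (hS : Good S cl) [Fintype V] {I J X : Gr V n} {x : V}
    (h : Gr.Loc I J X x) {φ ψ χ : V → ZMod 3} (hφ : Flow I φ) (hψ : Flow J ψ) (hχ : Flow X χ)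
    (oψ : Off I x φ ψ) (oχ : Off I x φ χ) (α β γ : ℤ)
    (H : ∀ a b c d, Al cl I φ (I.r x) a → Al cl I φ (I.r (I.r x)) b → Al cl I φ (I.r (I.e x)) c →
      Al cl I φ (I.r (I.r (I.e x))) d →
      α * fI S a b c d + β * fJ S a b c d + γ * fX S a b c d = 0) :
    α * Z S I (Al cl I φ) + β * Z S J (Al cl J ψ) + γ * Z S X (Al cl X χ) = 0 := by
  refine H0 _ S hS.ok V n I J X x h _ _ _ (adm hS hφ) (adm hS hψ) (adm hS hχ)
    (fun v l hv hl => al_leg hS v l hv hl)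
    (fun v h1 h2 l => ⟨al_off h.eJ h.lJ oψ v h1 h2 l, al_off h.eX h.lX oχ v h1 h2 l⟩) α β γ ?_
  intro a b c d ha hb hc hd
  have ea := al_ec hφ ha
  have eb := al_ec hφ hb
  have ec' := al_ec hφ hc
  have ed := al_ec hφ hd
  obtain ⟨fj, -⟩ := flowJ h hψ oψ
  obtain ⟨fx, -⟩ := flowX h hχ oχ
  have fi := hφ.r x
  have lx := loc_lg h.ok
  have e1 : tI S (Al cl I φ x) a b c d = fI S a b c d := by
    refine sum_al lx (fun l => sI (S.odd a) (S.odd b) (S.odd c) (S.odd d) (S.pos l) *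
      (S.T l a b * S.T (S.du l) c d)) fun l hl => ?_
    rw [clz' hS (t := φ x) (by rw [ea, eb]; linear_combination fi) hl]
    ring
  have e2 : tJ S (Al cl J ψ x) a b c d = fJ S a b c d := by
    refine sum_al (fun h' => lx ((lg_congr h.eJ h.lJ x).1 h'))
      (fun l => sJ (S.odd a) (S.odd b) (S.odd c) (S.odd d) (S.pos l) *
      (S.T l b c * S.T (S.du l) d a)) fun l hl => ?_
    rw [clz' hS (t := ψ x) (by rw [eb, ec']; exact fj) hl]
    ring
  have e3 : tX S (Al cl X χ x) a b c d = fX S a b c d := by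
    refine sum_al (fun h' => lx ((lg_congr h.eX h.lX x).1 h'))
      (fun l => sX (S.odd a) (S.odd b) (S.odd c) (S.odd d) (S.pos l) *
      (S.T l a c * S.T (S.du l) d b)) fun l hl => ?_
    rw [clz' hS (t := χ x) (by rw [ea, ec']; exact fx) hl]
    ring
  rw [e1, e2, e3]
  exact H a b c d ha hb hc hd

/-- One of the four half-edges at the edge `{x, y}` belongs to a leg, the flows of the other three
are not zero. -/
def BadF (I : Gr V n) (x : V) (φ : V → ZMod 3) : Prop :=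
  (Lg I (I.r x) ∧ φ (I.r (I.r x)) ≠ 0 ∧ φ (I.r (I.e x)) ≠ 0 ∧ φ (I.r (I.r (I.e x))) ≠ 0) ∨
  (Lg I (I.r (I.r x)) ∧ φ (I.r x) ≠ 0 ∧ φ (I.r (I.e x)) ≠ 0 ∧ φ (I.r (I.r (I.e x))) ≠ 0) ∨
  (Lg I (I.r (I.e x)) ∧ φ (I.r x) ≠ 0 ∧ φ (I.r (I.r x)) ≠ 0 ∧ φ (I.r (I.r (I.e x))) ≠ 0) ∨
  (Lg I (I.r (I.r (I.e x))) ∧ φ (I.r x) ≠ 0 ∧ φ (I.r (I.r x)) ≠ 0 ∧ φ (I.r (I.e x)) ≠ 0)

omit [Fintype B] in
theorem bad_iff {I : Gr V n} {x : V} {φ : V → ZMod 3} (hφ : Flow I φ) {a b c d : Option B}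
    (ha : Al cl I φ (I.r x) a) (hb : Al cl I φ (I.r (I.r x)) b) (hc : Al cl I φ (I.r (I.e x)) c)
    (hd : Al cl I φ (I.r (I.r (I.e x))) d) : bad cl a b c d ↔ BadF I x φ := by
  unfold bad BadF
  rw [al_none ha, al_none hb, al_none hc, al_none hd, al_ec hφ ha, al_ec hφ hb, al_ec hφ hc,
    al_ec hφ hd]

theorem zf_loc (H0 : S_loc) (hS : Good S cl) [Fintype V] {I J X : Gr V n} {x : V}
    (h : Gr.Loc I J X x) {φ ψ χ : V → ZMod 3} (hφ : Flow I φ) (hψ : Flow J ψ) (hχ : Flow X χ)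
    (oψ : Off I x φ ψ) (oχ : Off I x φ χ) :
    (¬ BadF I x φ → Z S I (Al cl I φ) - Z S J (Al cl J ψ) + Z S X (Al cl X χ) = 0) ∧
    (BadF I x φ → Z S I (Al cl I φ) = - Z S J (Al cl J ψ) ∧
      Z S I (Al cl I φ) = Z S X (Al cl X χ)) := by
  refine ⟨fun hb => ?_, fun hb => ⟨?_, ?_⟩⟩
  · have h1 := loc3 H0 hS h hφ hψ hχ oψ oχ 1 (-1) 1 fun a b c d ha hb' hc hd => by
      have h2 := (hS.li a b c d).1 fun h3 => hb ((bad_iff hφ ha hb' hc hd).1 h3)
      linear_combination h2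
    linear_combination h1
  · have h1 := loc3 H0 hS h hφ hψ hχ oψ oχ 1 1 0 fun a b c d ha hb' hc hd => by
      have h2 := ((hS.li a b c d).2 ((bad_iff hφ ha hb' hc hd).2 hb)).1
      linear_combination h2
    linear_combination h1
  · have h1 := loc3 H0 hS h hφ hψ hχ oψ oχ 1 0 (-1) fun a b c d ha hb' hc hd => by
      have h2 := ((hS.li a b c d).2 ((bad_iff hφ ha hb' hc hd).2 hb)).2
      linear_combination h2
    linear_combination h1

/-- Reversal of a cyclic order. -/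
theorem zf_flip (H0 : S_flip) (hS : Good S cl) [Fintype V] {G : Gr V n} {x : V}
    {φ : V → ZMod 3} (hφ : Flow G φ) (hx : G.r x ≠ x)
    (h3 : ¬ (Lg G x ∧ Lg G (G.r x) ∧ Lg G (G.r (G.r x)))) :
    Z S (G.flip x) (Al cl G φ) = - Z S G (Al cl G φ) := by
  refine H0 _ S hS.ok V n G x _ hx (adm hS hφ) (fun v l hv hl => al_leg hS v l hv hl) ?_
  intro a b c ha hb hc
  refine hS.as a b c ?_
  rintro ⟨rfl, rfl, rfl⟩
  exact h3 ⟨ha, hb, hc⟩

end Gen

theorem osp_good : Good osp ocl where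
  ok := osp_ok
  clz := osp_cl
  as := osp_as
  li := osp_li
  du_none := rfl
  du_some := by decide
  odd_none := rfl

theorem gl_good : Good gl gcl where
  ok := gl_ok
  clz := gl_cl
  as := gl_as
  li := gl_li
  du_none := rfl
  du_some := fun b => ⟨(b.2, b.1), rfl, by revert b; decide⟩
  odd_none := rfl

section C

variable {V : Type} {n : ℕ}

theorem al_flip {B : Type} {cl : B → ZMod 3} (G : Gr V n) (x : V) (φ : V → ZMod 3) :
    Al cl (G.flip x) φ = Al cl G φ := by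
  funext v l
  cases l with
  | none => exact propext (lg_congr (G.flip_e x) (G.flip_leg x) v)
  | some b =>
    show (¬ Lg (G.flip x) v ∧ cl b = φ v) = (¬ Lg G v ∧ cl b = φ v)
    rw [propext (lg_congr (G.flip_e x) (G.flip_leg x) v)]

theorem C_flip (H0 : S_flip) : S_Cas := by
  intro V _ n G x φ hφ hx h3
  unfold C cosp cgl
  rw [al_flip, al_flip, zf_flip H0 osp_good hφ hx h3, zf_flip H0 gl_good hφ hx h3]
  ring

theorem C_loc (H0 : S_loc) [Fintype V] {I J X : Gr V n} {x : V}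
    (h : Gr.Loc I J X x) {φ ψ χ : V → ZMod 3} (hφ : Flow I φ) (hψ : Flow J ψ) (hχ : Flow X χ)
    (oψ : Off I x φ ψ) (oχ : Off I x φ χ) :
    (¬ BadF I x φ → C I φ - C J ψ + C X χ = 0) ∧
    (BadF I x φ → C I φ = - C J ψ ∧ C I φ = C X χ) := by
  have h1 := zf_loc H0 osp_good h hφ hψ hχ oψ oχ
  have h2 := zf_loc H0 gl_good h hφ hψ hχ oψ oχ
  unfold C cosp cgl
  refine ⟨fun hb => ?_, fun hb => ⟨?_, ?_⟩⟩
  · linear_combination h1.1 hb - h2.1 hb
  · linear_combination (h1.2 hb).1 - (h2.2 hb).1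
  · linear_combination (h1.2 hb).2 - (h2.2 hb).2

theorem C_ihx (H0 : S_loc) : S_Cihx := by
  intro V _ n I J X x h φ ψ χ hφ hψ hχ oψ oχ h1 h2
  refine (C_loc H0 h hφ hψ hχ oψ oχ).1 ?_
  rintro (hb | hb | hb | hb)
  · exact h1.2.1 hb.1
  · exact h1.2.2 hb.1
  · exact h2.2.1 hb.1
  · exact h2.2.2 hb.1

theorem C_hair (H0 : S_loc) : S_Chair := by
  intro V _ n I J X x h φ ψ χ hφ hψ hχ oψ oχ h0 ha hb hl
  refine (C_loc H0 h hφ hψ hχ oψ oχ).2 ?_
  have h1 := hφ.r (I.e x)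
  have h2 := hφ.e x
  have ha0 : φ (I.r x) ≠ 0 := by rw [ha]; exact h0
  have hb0 : φ (I.r (I.r x)) ≠ 0 := by rw [hb]; exact h0
  rcases hl with hl | hl
  · refine Or.inr (Or.inr (Or.inl ⟨hl, ha0, hb0, fun h3 => h0 ?_⟩))
    rw [h2, hφ.lg hl, h3] at h1
    linear_combination - h1
  · refine Or.inr (Or.inr (Or.inr ⟨hl, ha0, hb0, fun h3 => h0 ?_⟩))
    rw [h2, hφ.lg hl, h3] at h1
    linear_combination - h1

end C

end Pool.Agent.SWT45
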