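import Pool.Agent.SWT45.Zero
import Pool.Agent.SWT93.EvenStep

/-!
# The number of the half-edges at the vertices without legs
-/

set_option autoImplicit false

namespace Pool.Agent.SWT45

open Equiv Pool.Agent.SWT80 Pool.Agent.SWT93
open scoped Classical

section

variable {V : Type} {n : ℕ}

/-- In a connected graph with more than two half-edges no leg ends at a leg. -/
theorem no_chord {G : Gr V n} (hG : GConn G) (h3 : 3 ≤ Nat.card V) {v : V} (hv : G.r v = v) :
    G.r (G.e v) ≠ G.e v := by
  intro h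
  have hS := hG {u | u = v ∨ u = G.e v} ⟨?_, ?_⟩ ⟨v, Or.inl rfl⟩
  · have h1 : Nat.card V ≤ 2 := by
      have h2 : (Set.univ : Set V) = (({v, G.e v} : Finset V) : Set V) := by
        rw [← hS]
        ext u
        simp
      rw [← Set.ncard_univ, h2, Set.ncard_coe_finset]
      exact Finset.card_le_two
    omega
  · rintro u (rfl | rfl)
    · exact Or.inr rfl
    · exact Or.inl (G.e2 _)
  · rintro u (rfl | rfl)
    · exact Or.inl hv
    · exact Or.inr h

/-- A connected graph with more than six half-edges has no vertex with three legs. -/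
theorem no_three {G : Gr V n} (hG : GConn G) (h7 : 7 ≤ Nat.card V) {v : V} (hv : G.r v ≠ v) :
    ¬ (Lg G v ∧ Lg G (G.r v) ∧ Lg G (G.r (G.r v))) := by
  rintro ⟨h1, h2, h3⟩
  have e1 : G.r (G.e v) = G.e v := h1.resolve_left hv
  have hv2 : G.r (G.r v) ≠ G.r v := fun h => hv (G.r_inj h)
  have e2 : G.r (G.e (G.r v)) = G.e (G.r v) := h2.resolve_left hv2
  have hv3 : G.r (G.r (G.r v)) ≠ G.r (G.r v) := fun h => hv2 (G.r_inj h)
  have e3 : G.r (G.e (G.r (G.r v))) = G.e (G.r (G.r v)) := h3.resolve_left hv3
  have hS := hG {u | u = v ∨ u = G.r v ∨ u = G.r (G.r v) ∨ u = G.e v ∨ u = G.e (G.r v) ∨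
    u = G.e (G.r (G.r v))} ⟨?_, ?_⟩ ⟨v, Or.inl rfl⟩
  · have h8 : Nat.card V ≤ 6 := by
      have h2 : (Set.univ : Set V) = (({v, G.r v, G.r (G.r v), G.e v, G.e (G.r v),
          G.e (G.r (G.r v))} : Finset V) : Set V) := by
        rw [← hS]
        ext u
        simp
      rw [← Set.ncard_univ, h2, Set.ncard_coe_finset]
      exact Finset.card_le_six
    omega
  · rintro u (rfl | rfl | rfl | rfl | rfl | rfl)
    · right; right; right; left; rfl
    · right; right; right; right; left; rfl
    · right; right; right; right; right; rfl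
    · left; exact G.e2 _
    · right; left; exact G.e2 _
    · right; right; left; exact G.e2 _
  · rintro u (rfl | rfl | rfl | rfl | rfl | rfl)
    · right; left; rfl
    · right; right; left; rfl
    · left; exact G.r3 _
    · right; right; right; left; exact e1
    · right; right; right; right; left; exact e2
    · right; right; right; right; right; exact e3

/-- The half-edges which are not real, if every vertex has at most one leg. -/
theorem real_card [Fintype V] {G : Gr V n}
    (hch : ∀ i, G.r (G.e (G.leg i)) ≠ G.e (G.leg i))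
    (hone : ∀ v, G.r v ≠ v → Lg G v → ¬ Lg G (G.r v)) :
    (Finset.univ.filter fun v => Real G v).card + 4 * n = Fintype.card V := by
  have h2 : ∀ v, G.r v ≠ v → Lg G v → ¬ Lg G (G.r (G.r v)) := fun v hv h1 h3 => by
    have h4 : G.r (G.r (G.r v)) ≠ G.r (G.r v) := fun h => hv (G.r_inj (G.r_inj h))
    have h5 := hone _ h4 h3
    rw [G.r3] at h5
    exact h5 h1
  set f : Fin n × Fin 4 → V := fun p =>
    if p.2 = 0 then G.leg p.1 else if p.2 = 1 then G.e (G.leg p.1)
    else if p.2 = 2 then G.r (G.e (G.leg p.1)) else G.r (G.r (G.e (G.leg p.1))) with hf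
  have lgi : ∀ i, Lg G (G.e (G.leg i)) := fun i => Or.inr (by rw [G.e2]; exact G.r_leg i)
  have lgr : ∀ i, ¬ Lg G (G.r (G.e (G.leg i))) := fun i => hone _ (hch i) (lgi i)
  have lgrr : ∀ i, ¬ Lg G (G.r (G.r (G.e (G.leg i)))) := fun i => h2 _ (hch i) (lgi i)
  have hL : ∀ i, Lg G (G.leg i) := fun i => Or.inl (G.r_leg i)
  have e3 : ∀ i, G.r (G.r (G.r (G.e (G.leg i)))) = G.e (G.leg i) := fun i => G.r3 _
  have finj : Function.Injective f := by
    rintro ⟨i, a⟩ ⟨j, b⟩ h
    simp only [hf] at h
    fin_cases a <;> fin_cases b <;> simp at h ⊢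
    · exact G.inj h
    · exact (hch j (by rw [← h]; exact G.r_leg i)).elim
    · exact (lgr j (h ▸ hL i)).elim
    · exact (lgrr j (h ▸ hL i)).elim
    · exact (hch i (by rw [h]; exact G.r_leg j)).elim
    · exact G.inj h
    · exact (lgr j (h ▸ lgi i)).elim
    · exact (lgrr j (h ▸ lgi i)).elim
    · exact (lgr i (h ▸ hL j)).elim
    · exact (lgr i (h ▸ lgi j)).elim
    · exact G.inj h
    · exact (lgrr i (by rw [h, e3]; exact lgi j)).elim
    · exact (lgrr i (h ▸ hL j)).elim
    · exact (lgrr i (h ▸ lgi j)).elim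
    · exact (lgrr j (by rw [← h, e3]; exact lgi i)).elim
    · exact G.inj h
  have hcompl : (Finset.univ.filter fun v => Real G v)ᶜ = Finset.univ.image f := by
    ext v
    simp only [Finset.mem_compl, Finset.mem_filter, Finset.mem_univ, true_and, Finset.mem_image]
    constructor
    · intro hv
      by_cases hrv : G.r v = v
      · obtain ⟨i, hi⟩ := (G.fix v).1 hrv
        exact ⟨(i, 0), by simpa [hf] using hi⟩
      · have key : ∀ u, G.r u ≠ u → Lg G u → ∃ i, G.e (G.leg i) = u := by
          intro u hu hl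
          obtain ⟨i, hi⟩ := (G.fix _).1 (hl.resolve_left hu)
          exact ⟨i, by rw [hi, G.e2]⟩
        have hv2 : G.r (G.r v) ≠ G.r v := fun h => hrv (G.r_inj h)
        have hv3 : G.r (G.r (G.r v)) ≠ G.r (G.r v) := fun h => hv2 (G.r_inj h)
        unfold Real at hv
        by_cases l1 : Lg G v
        · obtain ⟨i, hi⟩ := key v hrv l1
          exact ⟨(i, 1), by simpa [hf] using hi⟩
        by_cases l2 : Lg G (G.r v)
        · obtain ⟨i, hi⟩ := key _ hv2 l2
          refine ⟨(i, 3), ?_⟩
          simp [hf, hi, G.r3]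
        by_cases l3 : Lg G (G.r (G.r v))
        · obtain ⟨i, hi⟩ := key _ hv3 l3
          refine ⟨(i, 2), ?_⟩
          simp [hf, hi, G.r3]
        exact (hv ⟨l1, l2, l3⟩).elim
    · rintro ⟨⟨i, a⟩, rfl⟩ ⟨q1, q2, q3⟩
      simp only [hf] at q1 q2 q3
      fin_cases a <;> simp at q1 q2 q3
      · exact q1 (hL i)
      · exact q1 (lgi i)
      · exact q3 (by rw [e3]; exact lgi i)
      · exact q2 (by rw [e3]; exact lgi i)
  have h5 := Finset.card_compl (Finset.univ.filter fun v => Real G v)
  rw [hcompl, Finset.card_image_of_injective _ finj, Finset.card_univ, Fintype.card_prod,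
    Fintype.card_fin, Fintype.card_fin] at h5
  have h6 : (Finset.univ.filter fun v => Real G v).card ≤ Fintype.card V := Finset.card_le_univ _
  omega

/-- The congruence for the connected graphs with 8 legs and 56 half-edges. -/
theorem nine_dvd (H1 : S_cong) [Fintype V] {G : Gr V 8} (hG : GConn G) (hV : Nat.card V = 56)
    {φ : V → ZMod 3} (hφ : Flow G φ) : (9 : ℤ) ∣ C G φ := by
  have hch : ∀ i, G.r (G.e (G.leg i)) ≠ G.e (G.leg i) := fun i =>
    no_chord hG (by omega) (G.r_leg i)
  by_cases hone : ∀ v, G.r v ≠ v → Lg G v → ¬ Lg G (G.r v)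
  · refine H1 V 8 G φ hφ ?_
    have h1 := real_card hch hone
    rw [← Nat.card_eq_fintype_card, hV] at h1
    omega
  · push Not at hone
    obtain ⟨v, hv, l1, l2⟩ := hone
    have h1 := hφ.lg l1
    have h2 := hφ.lg l2
    have h3 := hφ.r v
    rw [h1, h2, zero_add, zero_add] at h3
    obtain ⟨h4, h5⟩ := C_zero V 8 G v φ hφ hv h1 h2 h3 (no_three hG (by omega) hv)
    unfold C
    rw [h4, h5]
    exact dvd_zero 9

end

end Pool.Agent.SWT45
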