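import Mathlib
import Pool.Agent.SWT45.Opc
import Pool.Agent.SWT80.Adj
import Pool.Agent.SWT36.HId

/-!
# A wheel with two chords: crossing chords

`G` is a cycle `R` with two chords `h`, `k` and hairs with the ordinary legs. The cycle which avoids
the vertex of `h` meets the vertex of `e h` if and only if the chords cross; this property is
symmetric in the four ends of the chords. In this case every vertex outside the cycle which avoids
the vertex of `h`, and different from it, carries an ordinary leg.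
-/

set_option autoImplicit false

namespace Pool.Agent.SWT45

open Equiv Pool.Agent.SWT49 Pool.Agent.SWT80 Pool.Agent.SWT93 Pool.Agent.SWT84 Pool.Agent.SWT89
  Pool.Agent.SWT65 Pool.Agent.SWT84.Cy

variable {V M : Type} {n : ℕ}

/-! ### Two cycles -/

/-- The sum of two cycles. -/
theorem cy_symm {G : Gr V n} {A B : Set V} (hA : Cy G A) (hB : Cy G B) : Cy G (symmDiff A B) := by
  have key : ∀ {A B : Set V}, Cy G A → Cy G B → ∀ v, v ∈ A → v ∉ B →
      (G.r v ∈ symmDiff A B ∧ G.r (G.r v) ∉ symmDiff A B) ∨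
      (G.r v ∉ symmDiff A B ∧ G.r (G.r v) ∈ symmDiff A B) := by
    intro A B hA hB v h1 h2
    simp only [Set.mem_symmDiff]
    by_cases h3 : G.r v ∈ B
    · have h4 := hB.rr_of h2 h3
      rcases hA.two v h1 with ⟨h5, h6⟩ | ⟨h5, h6⟩
      · right
        tauto
      · left
        tauto
    · have h4 : G.r (G.r v) ∉ B := fun h' => h3 (hB.r_of h2 h')
      rcases hA.two v h1 with ⟨h5, h6⟩ | ⟨h5, h6⟩
      · left
        tauto
      · right
        tauto
  refine ⟨?_, ?_⟩
  · rintro v (⟨h1, h2⟩ | ⟨h1, h2⟩)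
    · exact Or.inl ⟨hA.e v h1, fun h' => h2 (hB.e_iff.1 h')⟩
    · exact Or.inr ⟨hB.e v h1, fun h' => h2 (hA.e_iff.1 h')⟩
  · rintro v (⟨h1, h2⟩ | ⟨h1, h2⟩)
    · exact key hA hB v h1 h2
    · rw [symmDiff_comm]
      exact key hB hA v h1 h2

/-- The number of the common half-edges of two cycles at which the cycles separate is even. -/
theorem even_branch [Finite V] {G : Gr V n} {A B : Set V} (hA : Cy G A) (hB : Cy G B) :
    Even {v | v ∈ A ∧ v ∈ B ∧ oth G A v ∉ B}.ncard := by
  classical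
  have : Fintype V := Fintype.ofFinite V
  have h1 : {v | v ∈ A ∧ v ∈ B ∧ oth G A v ∉ B}.ncard =
      (Finset.univ.filter fun v => v ∈ A ∧ v ∈ B ∧ oth G A v ∉ B).card := by
    rw [← Set.ncard_coe_finset]
    congr 1
    ext v
    simp
  have h2 : ∑ v ∈ Finset.univ.filter (fun v => v ∈ A ∧ v ∈ B), (1 : ZMod 2) = 0 := by
    apply Finset.sum_involution (fun v _ => G.e v)
    · intro v _
      decide
    · intro v _ _
      exact G.e1 v
    · intro v hv
      rw [Finset.mem_filter] at hv ⊢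
      exact ⟨Finset.mem_univ _, hA.e v hv.2.1, hB.e v hv.2.2⟩
    · intro v _
      exact G.e2 v
  have h3 : ∑ v ∈ Finset.univ.filter (fun v => v ∈ A ∧ v ∈ B ∧ oth G A v ∈ B),
      (1 : ZMod 2) = 0 := by
    apply Finset.sum_involution (fun v _ => oth G A v)
    · intro v _
      decide
    · intro v hv _
      rw [Finset.mem_filter] at hv
      exact oth_ne hA hv.2.1
    · intro v hv
      rw [Finset.mem_filter] at hv ⊢
      refine ⟨Finset.mem_univ _, oth_mem hA hv.2.1, hv.2.2.2, ?_⟩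
      rw [oth_oth hA hv.2.1]
      exact hv.2.2.1
    · intro v hv
      rw [Finset.mem_filter] at hv
      exact oth_oth hA hv.2.1
  have h4 : (Finset.univ.filter fun v => v ∈ A ∧ v ∈ B).card =
      (Finset.univ.filter fun v => v ∈ A ∧ v ∈ B ∧ oth G A v ∈ B).card +
      (Finset.univ.filter fun v => v ∈ A ∧ v ∈ B ∧ oth G A v ∉ B).card := by
    rw [← Finset.card_filter_add_card_filter_not (s := Finset.univ.filter fun v => v ∈ A ∧ v ∈ B)
      (fun v => oth G A v ∈ B), Finset.filter_filter, Finset.filter_filter]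
    congr 2 <;> · congr 1; ext v; constructor <;> intro h <;> tauto
  rw [Finset.sum_const, nsmul_eq_mul, mul_one, ZMod.natCast_eq_zero_iff_even] at h2 h3
  rw [h1]
  obtain ⟨a, ha⟩ := h2
  obtain ⟨b, hb⟩ := h3
  exact ⟨a - b, by omega⟩

/-- A set of edges of a cycle which contains, away from the vertex of `w`, with a half-edge the other
half-edge of the cycle at its vertex, contains the other half-edge at the vertex of `w`. -/
theorem par_sub [Finite V] {G : Gr V n} {C Z : Set V} (hC : Cy G C) (hZ : Z ⊆ C)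
    (he : ∀ v ∈ Z, G.e v ∈ Z) {w : V} (hw : w ∈ Z)
    (ho : ∀ v ∈ Z, ¬ G.vt w v → oth G C v ∈ Z) : oth G C w ∈ Z := by
  classical
  by_contra hn
  have : Fintype V := Fintype.ofFinite V
  have h2 : ∑ v ∈ Finset.univ.filter (fun v => v ∈ Z), (1 : ZMod 2) = 0 := by
    apply Finset.sum_involution (fun v _ => G.e v)
    · intro v _
      decide
    · intro v _ _
      exact G.e1 v
    · intro v hv
      rw [Finset.mem_filter] at hv ⊢
      exact ⟨Finset.mem_univ _, he v hv.2⟩
    · intro v _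
      exact G.e2 v
  have hvt : ∀ v ∈ Z, v ≠ w → ¬ G.vt w v := by
    intro v hv hvw h
    have hwC := hZ hw
    have hvC := hZ hv
    rcases h with h | h | h
    · exact hvw h
    · rw [h] at hvC hv
      have h1 : oth G C w = G.r w := if_pos hvC
      exact hn (h1 ▸ hv)
    · rw [h] at hvC hv
      have h1 : oth G C w = G.r (G.r w) := by
        refine if_neg ?_
        rcases hC.two w hwC with ⟨_, h1⟩ | ⟨h1, _⟩
        · exact absurd hvC h1
        · exact h1
      exact hn (h1 ▸ hv)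
  have h3 : ∑ v ∈ (Finset.univ.filter (fun v => v ∈ Z)).erase w, (1 : ZMod 2) = 0 := by
    apply Finset.sum_involution (fun v _ => oth G C v)
    · intro v _
      decide
    · intro v hv _
      rw [Finset.mem_erase, Finset.mem_filter] at hv
      exact oth_ne hC (hZ hv.2.2)
    · intro v hv
      rw [Finset.mem_erase, Finset.mem_filter] at hv ⊢
      refine ⟨fun h' => hn ?_, Finset.mem_univ _, ho v hv.2.2 (hvt v hv.2.2 hv.1)⟩
      rw [← h', oth_oth hC (hZ hv.2.2)]
      exact hv.2.2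
    · intro v hv
      rw [Finset.mem_erase, Finset.mem_filter] at hv
      exact oth_oth hC (hZ hv.2.2)
  have hmem : w ∈ Finset.univ.filter fun v => v ∈ Z := by
    rw [Finset.mem_filter]
    exact ⟨Finset.mem_univ _, hw⟩
  rw [Finset.sum_const, nsmul_eq_mul, mul_one, ZMod.natCast_eq_zero_iff_even] at h2 h3
  rw [Finset.card_erase_of_mem hmem] at h3
  have h6 : 0 < (Finset.univ.filter fun v => v ∈ Z).card := Finset.card_pos.2 ⟨w, hmem⟩
  obtain ⟨a, ha⟩ := h2
  obtain ⟨b, hb⟩ := h3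
  omega

/-! ### A cycle with two chords -/

/-- `R` is the rim, `h` and `k` are the chords, the other half-edges at the vertices of `R` lead to
legs. -/
structure Ch (G : Gr V n) (h k : V) (R : Set V) : Prop where
  cd : CD G (D2 G h k)
  card : Nat.card V = 4 * n + 12
  ne1 : k ≠ h
  ne2 : k ≠ G.e h
  cy : Cy G R
  hd : ∀ v ∈ R, v ∉ D2 G h k
  on : ∀ v, G.r v ≠ v → On G R v
  lg : ∀ v, v ∉ R → v ∉ D2 G h k → G.r v ∈ R → G.r (G.e v) = G.e v
  inn : ∀ v ∈ D2 G h k, G.r v ≠ v
  uniq : ∀ S, Cy G S → S.Nonempty → (∀ v ∈ S, v ∉ D2 G h k) → ∀ v, G.r v ≠ v → On G S v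

theorem D2_eh (G : Gr V n) (h k : V) : D2 G (G.e h) k = D2 G h k := by
  unfold D2
  rw [G.e2, Set.pair_comm (G.e h) h]

/-- The wheels. -/
theorem exists_ch [Finite V] {G : Gr V (n + 1)} {h k : V} (h1 : One (opn2 G h k))
    (hN : SWT93.NoCherry (opn2 G h k)) : ∃ R, Ch G h k R := by
  obtain ⟨k1, k2, hc, hV⟩ := one_iff.1 h1
  have hm2 : ∀ (R : Set V) (v : V), (Sum.inl (Sum.inl v) : (V ⊕ Bool) ⊕ Bool) ∈
      Sum.inl '' (Sum.inl '' R) ↔ v ∈ R := fun R v => by
    rw [Sum.inl_injective.mem_set_image, Sum.inl_injective.mem_set_image]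
  have huniq : ∀ S, Cy G S → S.Nonempty → (∀ v ∈ S, v ∉ D2 G h k) → ∀ v, G.r v ≠ v →
      On G S v := by
    intro S hS hne hd v hv
    have h2 := SWT36.wheel_on h1.conn (by omega) h1.card hN (cy_opn2.2 ⟨S, rfl, hS, hd⟩)
      ((hne.image _).image _) (v := Sum.inl (Sum.inl v))
      (fun h' => hv (Sum.inl.inj (Sum.inl.inj h')))
    rcases h2 with h2 | h2
    · exact Or.inl ((hm2 _ _).1 h2)
    · rw [SWT67.opn2_r] at h2
      exact Or.inr ((hm2 _ _).1 h2)
  obtain ⟨S, hSne, hS⟩ := exists_cy (n := n + 1 + 3) (opn2 G h k) h1.card.ge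
  obtain ⟨R, rfl, hR, hd⟩ := cy_opn2.1 hS
  have hne : R.Nonempty := by
    obtain ⟨_, _, ⟨v, hv, rfl⟩, rfl⟩ := hSne
    exact ⟨v, hv⟩
  have hon := huniq R hR hne hd
  obtain ⟨_, hl⟩ := base_leg h1 hR hne hd fun v _ _ _ => by
    by_cases h2 : G.r (G.e v) = G.e v
    · exact Or.inr h2
    · exact Or.inl (hon _ h2)
  obtain ⟨_, _, i1, i2, i3, i4⟩ := SWT67.opn2_inner h1.conn (by omega)
  refine ⟨R, hc, hV, k1, k2, hR, hd, hon, hl, ?_, huniq⟩
  rintro v ((h2 | h2) | (h2 | h2))
  · rw [h2]; exact i1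
  · rw [h2]; exact i2
  · rw [h2]; exact i3
  · rw [h2]; exact i4

namespace Ch

variable {G : Gr V n} {h k : V} {R : Set V}

theorem eh (c : Ch G h k R) : Ch G (G.e h) k R := by
  refine ⟨?_, c.card, c.ne2, ?_, c.cy, ?_, c.on, ?_, ?_, ?_⟩
  · rw [D2_eh]; exact c.cd
  · rw [G.e2]; exact c.ne1
  · rw [D2_eh]; exact c.hd
  · rw [D2_eh]; exact c.lg
  · rw [D2_eh]; exact c.inn
  · rw [D2_eh]; exact c.uniq

theorem swap (c : Ch G h k R) : Ch G k h R := by
  refine ⟨?_, c.card, c.ne1.symm, ?_, c.cy, ?_, c.on, ?_, ?_, ?_⟩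
  · rw [D2_comm]; exact c.cd
  · intro h'
    apply c.ne2
    rw [h', G.e2]
  · rw [D2_comm]; exact c.hd
  · rw [D2_comm]; exact c.lg
  · rw [D2_comm]; exact c.inn
  · rw [D2_comm]; exact c.uniq

theorem ek (c : Ch G h k R) : Ch G h (G.e k) R := c.swap.eh.swap

theorem mem_h (G : Gr V n) (h k : V) : h ∈ D2 G h k := Or.inl (Or.inl rfl)

theorem mem_eh (G : Gr V n) (h k : V) : G.e h ∈ D2 G h k := Or.inl (Or.inr rfl)

theorem h_not (c : Ch G h k R) : h ∉ R := fun h' => c.hd _ h' (mem_h G h k)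

theorem rh (c : Ch G h k R) : G.r h ∈ R :=
  (c.on h (c.inn _ (mem_h G h k))).resolve_left c.h_not

theorem rrh (c : Ch G h k R) : G.r (G.r h) ∈ R := c.cy.rr_of c.h_not c.rh

/-- A cycle which avoids the vertex of `h`. -/
theorem mem_k (c : Ch G h k R) {S : Set V} (hS : Cy G S) (hne : S.Nonempty)
    (ha : ∀ v ∈ S, ¬ G.vt h v) : k ∈ S := by
  by_contra hk
  have h1 : h ∉ S := fun h' => ha h h' (G.vt_self h)
  have h2 := c.uniq S hS hne (by
    rintro v hv ((h2 | h2) | (h2 | h2))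
    · exact h1 (h2 ▸ hv)
    · have h3 := h2 ▸ hv
      exact h1 (hS.e_iff.1 h3)
    · exact hk (h2 ▸ hv)
    · have h3 := h2 ▸ hv
      exact hk (hS.e_iff.1 h3)) h (c.inn _ (mem_h G h k))
  rcases h2 with h2 | h2
  · exact h1 h2
  · exact ha _ h2 (G.vt_r1 h)

/-- A cycle which avoids the vertex of `h` consists of edges of the rim and of the chord `k`. -/
theorem sub (c : Ch G h k R) {S : Set V} (hS : Cy G S) (ha : ∀ v ∈ S, ¬ G.vt h v) {v : V}
    (hv : v ∈ S) : v ∈ R ∨ v = k ∨ v = G.e k := by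
  by_cases h1 : v ∈ R
  · exact Or.inl h1
  right
  have h2 := (c.on v (hS.ne_leg hv)).resolve_left h1
  by_contra h3
  have h4 : v ∉ D2 G h k := by
    rintro ((h4 | h4) | (h4 | h4))
    · exact ha v hv (h4 ▸ G.vt_self h)
    · have h5 : G.e v ∈ S := hS.e v hv
      have h6 : v = G.e h := h4
      rw [h6, G.e2] at h5
      exact ha h h5 (G.vt_self h)
    · exact h3 (Or.inl h4)
    · exact h3 (Or.inr h4)
  exact hS.ne_leg (hS.e v hv) (c.lg v h1 h4 h2)

end Ch

/-- The cycle which avoids the vertex of `h` passes through the vertex of `e h`. -/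
def Crs (G : Gr V n) (h : V) : Prop :=
  ∃ S, Cy G S ∧ (∀ v ∈ S, ¬ G.vt h v) ∧ On G S (G.e h)

namespace Ch

variable {G : Gr V n} {h k : V} {R : Set V}

/-- The other end of the same chord. -/
theorem crs_eh (c : Ch G h k R) (hc : Crs G h) : Crs G (G.e h) := by
  obtain ⟨S, hS, ha, ho⟩ := hc
  have h1 : h ∉ S := fun h' => ha h h' (G.vt_self h)
  have h2 : G.e h ∉ S := fun h' => h1 (hS.e_iff.1 h')
  have h3 := ho.resolve_left h2
  have h4 := hS.rr_of h2 h3
  refine ⟨symmDiff S R, cy_symm hS c.cy, ?_, ?_⟩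
  · intro v hv hvt
    rcases hvt with h5 | h5 | h5
    · rw [h5] at hv
      rcases hv with ⟨h6, _⟩ | ⟨h6, _⟩
      · exact h2 h6
      · exact c.eh.h_not h6
    · rw [h5] at hv
      rcases hv with ⟨_, h6⟩ | ⟨_, h6⟩
      · exact h6 c.eh.rh
      · exact h6 h3
    · rw [h5] at hv
      rcases hv with ⟨_, h6⟩ | ⟨_, h6⟩
      · exact h6 c.eh.rrh
      · exact h6 h4
  · right
    rw [G.e2]
    exact Or.inr ⟨c.rh, fun h' => ha _ h' (G.vt_r1 h)⟩

theorem crs_eh_iff (c : Ch G h k R) : Crs G (G.e h) ↔ Crs G h := by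
  refine ⟨fun h' => ?_, c.crs_eh⟩
  have h1 := c.eh.crs_eh h'
  rw [G.e2] at h1
  exact h1

theorem one_cut [Finite V] (c : Ch G h k R) (hx : G.r h ≠ h) : One (G.cut h hx) :=
  ⟨gconn_cut_rim (c.cd.mono Set.subset_union_left) c.cy c.h_not c.rh hx, by
    have := c.card
    omega⟩

/-- There is a cycle which avoids the vertex of `h`. -/
theorem ex [Finite V] (c : Ch G h k R) :
    ∃ S, Cy G S ∧ S.Nonempty ∧ ∀ v ∈ S, ¬ G.vt h v := by
  have hx := c.inn _ (mem_h G h k)
  obtain ⟨S, hne, hS⟩ := exists_cy (n := n + 2) (G.cut h hx) (c.one_cut hx).card.ge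
  obtain ⟨h1, h2⟩ := cy_of_cut hS
  exact ⟨S, h1, hne, h2⟩

/-- The other chord. -/
theorem crs_k [Finite V] (c : Ch G h k R) (hc : Crs G h) : Crs G k := by
  obtain ⟨A, hA, haA, hoA⟩ := hc
  obtain ⟨B, hB, hneB, haB⟩ := c.swap.ex
  refine ⟨B, hB, haB, ?_⟩
  by_contra hoB
  have hhB : h ∈ B := c.swap.mem_k hB hneB haB
  have hehB : G.e h ∈ B := hB.e h hhB
  have hhA : h ∉ A := fun h' => haA h h' (G.vt_self h)
  have hehA : G.e h ∉ A := fun h' => hhA (hA.e_iff.1 h')
  have r1 : G.r (G.e h) ∈ A := hoA.resolve_left hehA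
  have r2 : G.r (G.r (G.e h)) ∈ A := hA.rr_of hehA r1
  -- the half-edges at which the cycles separate are at the vertex of `e h`
  have key : ∀ v, v ∈ A → v ∈ B → oth G A v ∉ B →
      v = G.r (G.e h) ∨ v = G.r (G.r (G.e h)) := by
    intro v hvA hvB hm
    have hvR : v ∈ R := by
      rcases c.sub hA haA hvA with h1 | h1 | h1
      · exact h1
      · exact absurd (h1 ▸ G.vt_self k) (haB v hvB)
      · exact absurd (Or.inl (h1 ▸ hvB)) hoB
    -- the half-edge `w` of `A` at the vertex of `v`, the half-edge `w'` of `B`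
    have main : ∀ w w', G.vt v w → G.vt v w' → G.vt w v → G.vt w' v → w ∈ A → w ∉ B → w' ∈ B →
        (w ∉ R ∨ w' ∉ R) → (w' = G.e h → v = G.r (G.e h) ∨ v = G.r (G.r (G.e h))) →
        v = G.r (G.e h) ∨ v = G.r (G.r (G.e h)) := by
      intro w w' _ _ hw hw' hwA hwB hwB' hR hfin
      rcases hR with hR | hR
      · exfalso
        rcases (c.sub hA haA hwA).resolve_left hR with h1 | h1
        · rw [h1] at hw
          exact haB v hvB hw
        · rw [h1] at hw
          rcases hw with h2 | h2 | h2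
          · exact hoB (Or.inl (h2 ▸ hvB))
          · exact hoB (Or.inr (h2 ▸ hvB))
          · refine hoB (hB.on_r.1 (Or.inr (h2 ▸ hvB)))
      · rcases (c.swap.sub hB haB hwB').resolve_left hR with h1 | h1
        · exfalso
          rw [h1] at hw'
          exact haA v hvA hw'
        · exact hfin h1
    have vr1 : G.vt v (G.r v) := Or.inr (Or.inl rfl)
    have vr2 : G.vt v (G.r (G.r v)) := Or.inr (Or.inr rfl)
    rcases hA.two v hvA with ⟨a1, a2⟩ | ⟨a1, a2⟩
    · have hw : oth G A v = G.r v := if_pos a1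
      rw [hw] at hm
      have hb := (hB.two v hvB).resolve_left fun h' => hm h'.1
      refine main (G.r v) (G.r (G.r v)) vr1 vr2 (Gr.vt_symm G vr1) (Gr.vt_symm G vr2) a1 hm hb.2
        ?_ ?_
      · rcases c.cy.two v hvR with ⟨_, h2⟩ | ⟨h2, _⟩
        · exact Or.inr h2
        · exact Or.inl h2
      · intro h2
        left
        rw [← h2, G.r3]
    · have hw : oth G A v = G.r (G.r v) := if_neg a1
      rw [hw] at hm
      have hb := (hB.two v hvB).resolve_right fun h' => hm h'.2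
      refine main (G.r (G.r v)) (G.r v) vr2 vr1 (Gr.vt_symm G vr2) (Gr.vt_symm G vr1) a2 hm hb.1
        ?_ ?_
      · rcases c.cy.two v hvR with ⟨_, h2⟩ | ⟨h2, _⟩
        · exact Or.inl h2
        · exact Or.inr h2
      · intro h2
        right
        rw [← h2, G.r3]
  have hev := even_branch hA hB
  rcases hB.two _ hehB with ⟨b1, b2⟩ | ⟨b1, b2⟩
  · have hset : {v | v ∈ A ∧ v ∈ B ∧ oth G A v ∉ B} = {G.r (G.e h)} := by
      ext v
      constructor
      · rintro ⟨h1, h2, h3⟩
        rcases key v h1 h2 h3 with h4 | h4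
        · exact h4
        · exact absurd (h4 ▸ h2) b2
      · intro h1
        have h1' : v = G.r (G.e h) := h1
        rw [h1']
        refine ⟨r1, b1, ?_⟩
        have h4 : oth G A (G.r (G.e h)) = G.r (G.r (G.e h)) := if_pos r2
        rw [h4]
        exact b2
    rw [hset, Set.ncard_singleton] at hev
    exact absurd hev (by decide)
  · have hset : {v | v ∈ A ∧ v ∈ B ∧ oth G A v ∉ B} = {G.r (G.r (G.e h))} := by
      ext v
      constructor
      · rintro ⟨h1, h2, h3⟩
        rcases key v h1 h2 h3 with h4 | h4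
        · exact absurd (h4 ▸ h2) b1
        · exact h4
      · intro h1
        have h1' : v = G.r (G.r (G.e h)) := h1
        rw [h1']
        refine ⟨r2, b2, ?_⟩
        have h4 : oth G A (G.r (G.r (G.e h))) = G.r (G.r (G.r (G.r (G.e h)))) := by
          refine if_neg ?_
          rw [G.r3]
          exact hehA
        rw [h4, G.r3]
        exact b1
    rw [hset, Set.ncard_singleton] at hev
    exact absurd hev (by decide)

theorem crs_k_iff [Finite V] (c : Ch G h k R) : Crs G k ↔ Crs G h := ⟨c.swap.crs_k, c.crs_k⟩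

theorem crs_ek_iff [Finite V] (c : Ch G h k R) : Crs G (G.e k) ↔ Crs G h :=
  c.swap.crs_eh_iff.trans c.crs_k_iff

/-- If the chords do not cross then no cycle which avoids the vertex of `h` meets the vertex of
`e h`. -/
theorem not_on (hc : ¬ Crs G h) {S : Set V} (hS : Cy G S) (ha : ∀ v ∈ S, ¬ G.vt h v) :
    ¬ On G S (G.e h) := fun h' => hc ⟨S, hS, ha, h'⟩

/-- If the chords cross then every vertex outside the cycle which avoids the vertex of `h` and
different from it carries an ordinary leg. -/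
theorem hr (c : Ch G h k R) (hx : G.r h ≠ h) {S : Set V} (hS : Cy G S)
    (ha : ∀ v ∈ S, ¬ G.vt h v) (ho : On G S (G.e h)) : SWT36.Hr (G.cut h hx) S := by
  have hne : S.Nonempty := by
    rcases ho with h1 | h1
    · exact ⟨_, h1⟩
    · exact ⟨_, h1⟩
  have hk := c.mem_k hS hne ha
  have hek := hS.e k hk
  intro v hv
  have hnv : ¬ G.vt h v := fun h' => hv (G.cut_r_in hx h')
  have hnv1 : ¬ G.vt h (G.r v) := fun h' => hnv (G.vt_r.1 h')
  rw [G.cut_r_o hx hnv] at hv
  have hcut : (G.cut h hx).r v = G.r v := G.cut_r_o hx hnv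
  have hcut1 : (G.cut h hx).r (G.r v) = G.r (G.r v) := G.cut_r_o hx hnv1
  -- the half-edge at the vertex outside the rim
  obtain ⟨u, hu, huR, hru⟩ : ∃ u, G.vt v u ∧ u ∉ R ∧ G.r u ∈ R := by
    by_cases h1 : v ∈ R
    · rcases c.cy.two v h1 with ⟨h2, h3⟩ | ⟨h2, h3⟩
      · exact ⟨G.r (G.r v), Or.inr (Or.inr rfl), h3, by rw [G.r3]; exact h1⟩
      · exact ⟨G.r v, Or.inr (Or.inl rfl), h2, h3⟩
    · exact ⟨v, Or.inl rfl, h1, (c.on v hv).resolve_left h1⟩
  have honu : ∀ w, G.vt w v → On G S w → On (G.cut h hx) S v := by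
    intro w hw hw'
    have h1 : On G S v := by
      rcases hw with h2 | h2 | h2
      · rw [h2]; exact hw'
      · rw [h2]; exact hS.on_r.2 hw'
      · rw [h2]; exact hS.on_r.2 (hS.on_r.2 hw')
    rcases h1 with h1 | h1
    · exact Or.inl h1
    · exact Or.inr (by rw [hcut]; exact h1)
  by_cases hD : u ∈ D2 G h k
  · left
    have huv := Gr.vt_symm G hu
    rcases hD with (h1 | h1) | (h1 | h1)
    · rw [h1] at huv
      exact absurd huv hnv
    · have h1' : u = G.e h := h1
      rw [h1'] at huv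
      exact honu _ huv ho
    · rw [h1] at huv
      exact honu _ huv (Or.inl hk)
    · have h1' : u = G.e k := h1
      rw [h1'] at huv
      exact honu _ huv (Or.inl hek)
  · right
    obtain ⟨i, hi⟩ := (G.fix (G.e u)).1 (c.lg u huR hD hru)
    refine ⟨u, ?_, i, ?_⟩
    · unfold Gr.vt
      rw [hcut, hcut1]
      exact hu
    · rw [G.cut_leg_l hx]
      exact hi.symm

theorem hr_cut (c : Ch G h k R) (hc : Crs G h) (hx : G.r h ≠ h) :
    ∃ S, Cy (G.cut h hx) S ∧ S.Nonempty ∧ SWT36.Hr (G.cut h hx) S := by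
  obtain ⟨S, hS, ha, ho⟩ := hc
  have hne : S.Nonempty := by
    rcases ho with h1 | h1
    · exact ⟨_, h1⟩
    · exact ⟨_, h1⟩
  refine ⟨S, ⟨hS.e, fun v hv => ?_⟩, hne, c.hr hx hS ha ho⟩
  rw [G.cut_r_o hx (ha v hv), G.cut_r_o hx fun h' => ha v hv (G.vt_r.1 h')]
  exact hS.two v hv

variable [AddCommGroup M]

/-- **Crossing chords: the value with the hub at an end of a chord is the sum over all positions of
the hub.** -/
theorem at3_eq [Finite V] {F F' : (V : Type) → Gr V (n + 3) → M} (hF : Rel F)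
    (hA : Alt3 F) (hO : SWT36.Off F) (hS : Slide F) (hF' : Rel F')
    (hw : ∀ (V : Type) [Finite V] (R : Gr V (n + 3)), One R → SWT93.NoCherry R →
      F' V R = SWT36.FF F V R.join) (c : Ch G h k R) (hc : Crs G h) :
    at3 F' V G h = SWT36.FF F V G := by
  have hx := c.inn _ (mem_h G h k)
  obtain ⟨S, h1, h2, h3⟩ := c.hr_cut hc hx
  rw [at3_in G hx, SWT36.four_eq hF hA hO hS hF' hw (c.one_cut hx) h1 h2 h3, Gr.join_cut]

end Ch

/-- The crossing case of `AllHubs`. -/
theorem cross_all [AddCommGroup M] [Finite V] {F F' : (V : Type) → Gr V (n + 1 + 3) → M}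
    (hF : Rel F) (hA : Alt3 F) (hO : SWT36.Off F) (hS : Slide F) (hF' : Rel F')
    (hw : ∀ (V : Type) [Finite V] (R : Gr V (n + 1 + 3)), One R → SWT93.NoCherry R →
      F' V R = SWT36.FF F V R.join) {G : Gr V (n + 1)} {h k : V} (h1 : One (opn2 G h k))
    (hN : SWT93.NoCherry (opn2 G h k)) (hc : Crs G h) :
    at3 F' V G h = at3 F' V G k ∧ at3 F' V G (G.e h) = at3 F' V G k ∧
      at3 F' V G (G.e k) = at3 F' V G k := by
  obtain ⟨R, c⟩ := exists_ch h1 hN
  have e1 := c.at3_eq hF hA hO hS hF' hw hc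
  have e2 := c.eh.at3_eq hF hA hO hS hF' hw (c.crs_eh_iff.2 hc)
  have e3 := c.swap.at3_eq hF hA hO hS hF' hw (c.crs_k_iff.2 hc)
  have e4 := c.swap.eh.at3_eq hF hA hO hS hF' hw (c.crs_ek_iff.2 hc)
  exact ⟨e1.trans e3.symm, e2.trans e3.symm, e4.trans e3.symm⟩

end Pool.Agent.SWT45
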