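import Mathlib
import Pool.Agent.SWT80.Gr

/-!
# Z/3-graded state sums of based graphs: definitions

The state sums of a metric Lie superalgebra over `ℤ` (given by its structure tensor in a basis which
is permuted by the duality) with the labels in prescribed sets, the label systems of `osp(1|2)` and
`gl(3)` with an additional label `none` on the legs, their difference with a prescribed flow in
`ZMod 3`, and the functional on the graphs with 8 legs.
-/

set_option autoImplicit false

namespace Pool.Agent.SWT45

open Equiv Pool.Agent.SWT80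
open scoped Classical

/-! ### Label systems -/

/-- Labels with the duality `du`, the parity `odd`, a choice `pos` of one odd label in every pair of
dual odd labels, and the structure tensor `T` (for the three half-edges at a vertex in their cyclic
order). -/
structure LS (L : Type) where
  du : L → L
  odd : L → Bool
  pos : L → Bool
  T : L → L → L → ℤ

/-- The axioms of a label system without the Jacobi identity. -/
structure LS.Ok {L : Type} (S : LS L) : Prop where
  du_du : ∀ l, S.du (S.du l) = l
  odd_du : ∀ l, S.odd (S.du l) = S.odd l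
  pos_du : ∀ l, S.odd l = true → S.pos (S.du l) = !(S.pos l)
  cyc : ∀ a b c, S.T a b c = S.T b c a
  par : ∀ a b c, S.T a b c ≠ 0 → (S.odd a ^^ (S.odd b ^^ S.odd c)) = false

/-! ### The sign of a labelling -/

section Sign

variable {V : Type}

/-- `κ` maps the directed odd edges (from the positive half `v` to `e v`) to the directed odd pairs
`(v, r v)` at the vertices, and fixes all even half-edges. `o` are the odd, `p` the positive
half-edges. -/
structure IsK (e r : Perm V) (o p : V → Bool) (κ : Perm V) : Prop where
  fix : ∀ v, o v = false → κ v = v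
  map : ∀ v, o v = true → p v = true → o (κ v) = true ∧ o (r (κ v)) = true ∧ κ (e v) = r (κ v)

/-- The sign of a labelling: the sign of any permutation `κ` as in `IsK`. -/
noncomputable def sg [Fintype V] (e r : Perm V) (o p : V → Bool) : ℤ :=
  if h : ∃ κ, IsK e r o p κ then ((Perm.sign h.choose : ℤˣ) : ℤ) else 0

/-- The parities are compatible with the edges and the vertices: the hypotheses under which `κ`
exists and its sign is unique. The fixed points of `r` are even, and there are `0` or `2` odd
half-edges at every vertex. -/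
structure Par2 (e r : Perm V) (o p : V → Bool) : Prop where
  oe : ∀ v, o (e v) = o v
  pe : ∀ v, o v = true → p (e v) = !(p v)
  ol : ∀ v, r v = v → o v = false
  o3 : ∀ v, (o v ^^ (o (r v) ^^ o (r (r v)))) = false

/-- `Q` contains exactly one half-edge of every vertex which is not a fixed point of `r`. -/
structure IsRep (r : Perm V) (Q : Finset V) : Prop where
  nf : ∀ v ∈ Q, r v ≠ v
  ex : ∀ v, r v ≠ v → v ∈ Q ∨ r v ∈ Q ∨ r (r v) ∈ Q
  un : ∀ v ∈ Q, r v ∉ Q ∧ r (r v) ∉ Q

/-- The product over the trivalent vertices (`f` is constant on every vertex). -/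
noncomputable def vp (r : Perm V) (f : V → ℤ) : ℤ :=
  if h : ∃ Q, IsRep r Q then ∏ v ∈ h.choose, f v else 0

end Sign

/-! ### State sums -/

section Z

variable {L V : Type} {n : ℕ}

/-- The weight of a labelling. -/
noncomputable def wt [Fintype V] (S : LS L) (G : Gr V n) (s : V → L) : ℤ :=
  sg G.e G.r (fun v => S.odd (s v)) (fun v => S.pos (s v)) *
    vp G.r fun v => S.T (s v) (s (G.r v)) (s (G.r (G.r v)))

/-- `s` is a state with the allowed labels `A`. -/
def IsSt (S : LS L) (G : Gr V n) (A : V → L → Prop) (s : V → L) : Prop :=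
  (∀ v, A v (s v)) ∧ ∀ v, s (G.e v) = S.du (s v)

/-- The state sum with the allowed labels `A`. -/
noncomputable def Z [Fintype V] [Fintype L] (S : LS L) (G : Gr V n) (A : V → L → Prop) : ℤ :=
  ∑ s ∈ (Finset.univ : Finset (V → L)).filter (fun s => IsSt S G A s), wt S G s

/-- The sign of the weight at the edge `{x, y}` of `I`, relative to a sign which is the same for
`I`, `J`, `X`; `oa, ob, oc, od` are the parities of `a, b, c, d`, and `p` says that the label of `x`
is positive. -/
def sI (oa ob _oc _od p : Bool) : ℤ := if oa ^^ ob then (if p ^^ oa then 1 else -1) else 1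

def sJ (oa ob oc od p : Bool) : ℤ :=
  if ob ^^ oc then (if p ^^ (oa && ob) then 1 else -1)
  else (if oa && ob && oc && od then -1 else 1)

def sX (oa _ob oc _od p : Bool) : ℤ := if oa ^^ oc then (if p then 1 else -1) else 1

/-- The local sums at the edge `{x, y}`. -/
noncomputable def tI [Fintype L] (S : LS L) (P : L → Prop) (a b c d : L) : ℤ :=
  ∑ l ∈ (Finset.univ : Finset L).filter P,
    sI (S.odd a) (S.odd b) (S.odd c) (S.odd d) (S.pos l) * (S.T l a b * S.T (S.du l) c d)

noncomputable def tJ [Fintype L] (S : LS L) (P : L → Prop) (a b c d : L) : ℤ :=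
  ∑ l ∈ (Finset.univ : Finset L).filter P,
    sJ (S.odd a) (S.odd b) (S.odd c) (S.odd d) (S.pos l) * (S.T l b c * S.T (S.du l) d a)

noncomputable def tX [Fintype L] (S : LS L) (P : L → Prop) (a b c d : L) : ℤ :=
  ∑ l ∈ (Finset.univ : Finset L).filter P,
    sX (S.odd a) (S.odd b) (S.odd c) (S.odd d) (S.pos l) * (S.T l a c * S.T (S.du l) d b)

/-- The allowed labels are compatible with the duality. -/
def Adm (S : LS L) (G : Gr V n) (A : V → L → Prop) : Prop := ∀ v l, A v l → A (G.e v) (S.du l)

end Z

/-! ### The label systems -/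

/-- The tensor of a label system with a label `none` for the legs: `h x y` is the value of
`(none, x, y)`. -/
def oT {B : Type} (T : B → B → B → ℤ) (h : B → B → ℤ) : Option B → Option B → Option B → ℤ
  | some a, some b, some c => T a b c
  | none, some x, some y => h x y
  | some x, some y, none => h x y
  | some y, none, some x => h x y
  | none, none, none => 1
  | _, _, _ => 0

/-- The weights of the five labels of `osp(1|2)`. -/
def ow (l : Fin 5) : ℤ := if l = 0 then 0 else if l = 1 then 1 else if l = 2 then -2
  else if l = 3 then -1 else 2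

def odu (l : Fin 5) : Fin 5 := if l = 0 then 0 else if l = 1 then 3 else if l = 2 then 4
  else if l = 3 then 1 else 2

/-- The class of a label in `ZMod 3`. -/
def ocl (l : Fin 5) : ZMod 3 := if l = 0 then 0 else if l = 1 then 1 else if l = 2 then 1
  else if l = 3 then 2 else 2

def oodd (l : Fin 5) : Bool := l = 1 || l = 3

/-- The structure constants of `osp(1|2)`. -/
def oT3 (a b c : Fin 5) : ℤ :=
  if ow a + ow b + ow c ≠ 0 then 0
  else if oodd a || oodd b || oodd c then (if a = 4 || b = 4 || c = 4 then 2 else -1)
  else if a = 0 then ow b else if b = 0 then ow c else ow a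

/-- The derivation: the class in `{0, 1, -1}`. -/
def oh (x y : Fin 5) : ℤ :=
  if ow x + ow y ≠ 0 then 0 else if oodd x then -1 else if x = 2 then 1 else if x = 4 then -1
  else 0

/-- `osp(1|2)`. -/
def osp : LS (Option (Fin 5)) where
  du := Option.map odu
  odd l := match l with | none => false | some b => oodd b
  pos l := match l with | none => false | some b => decide (b = 1)
  T := oT oT3 oh

/-- The class of the matrix unit `(i, j)`. -/
def gcl (l : Fin 3 × Fin 3) : ZMod 3 :=
  if l.1 = l.2 then 0 else if l.2 = l.1 + 1 then 1 else 2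

/-- The trace of `[x, y] z` for matrix units. -/
def gT3 (x y z : Fin 3 × Fin 3) : ℤ :=
  (if x.2 = y.1 ∧ y.2 = z.1 ∧ z.2 = x.1 then 1 else 0) -
    (if x.2 = z.1 ∧ z.2 = y.1 ∧ y.2 = x.1 then 1 else 0)

def gh (x y : Fin 3 × Fin 3) : ℤ :=
  if y = (x.2, x.1) then (if x.1 = x.2 then 0 else if x.2 = x.1 + 1 then 1 else -1) else 0

/-- `gl(3)`. -/
def gl : LS (Option (Fin 3 × Fin 3)) where
  du := Option.map fun x => (x.2, x.1)
  odd _ := false
  pos _ := false
  T := oT gT3 gh

/-! ### Flows -/

section Flow

variable {V : Type} {n : ℕ}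

/-- A flow in `ZMod 3` which is zero on the legs. -/
structure Flow (G : Gr V n) (φ : V → ZMod 3) : Prop where
  e : ∀ v, φ (G.e v) = - φ v
  r : ∀ v, φ v + φ (G.r v) + φ (G.r (G.r v)) = 0
  leg : ∀ v, G.r v = v → φ v = 0

/-- The half-edge `v` belongs to a leg. -/
def Lg (G : Gr V n) (v : V) : Prop := G.r v = v ∨ G.r (G.e v) = G.e v

/-- The vertex of `v` is trivalent and not the end of a leg. -/
def Real (G : Gr V n) (v : V) : Prop := ¬ Lg G v ∧ ¬ Lg G (G.r v) ∧ ¬ Lg G (G.r (G.r v))

/-- The allowed labels: `none` on the legs, the labels of class `φ v` elsewhere. -/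
def Al {B : Type} (cl : B → ZMod 3) (G : Gr V n) (φ : V → ZMod 3) (v : V) : Option B → Prop
  | none => Lg G v
  | some b => ¬ Lg G v ∧ cl b = φ v

/-- The state sums with the flow `φ`. -/
noncomputable def cosp [Fintype V] (G : Gr V n) (φ : V → ZMod 3) : ℤ := Z osp G (Al ocl G φ)

noncomputable def cgl [Fintype V] (G : Gr V n) (φ : V → ZMod 3) : ℤ := Z gl G (Al gcl G φ)

/-- The difference. -/
noncomputable def C [Fintype V] (G : Gr V n) (φ : V → ZMod 3) : ℤ := cosp G φ - cgl G φ

/-- The functional. -/
noncomputable def z [Fintype V] (G : Gr V n) : ZMod 3 :=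
  ((∑ φ ∈ (Finset.univ : Finset (V → ZMod 3)).filter (fun φ => Flow G φ), C G φ / 9 : ℤ) : ZMod 3)

end Flow

end Pool.Agent.SWT45
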