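import Pool.Agent.SWT45.Zfun
import Pool.Agent.SWT93.Chain

/-!
# The input of level 8
-/

set_option autoImplicit false

namespace Pool.Agent.SWT45

open Equiv Pool.Agent.SWT80 Pool.Agent.SWT93
open scoped Classical

/-- The functional on the graphs with 8 legs. -/
noncomputable def z8 (V : Type) (G : Gr V 8) : ZMod 3 :=
  if h : Nat.card V = 56 ∧ GConn G then
    @z V 8 (@Fintype.ofFinite V (Nat.finite_of_card_ne_zero (by rw [h.1]; norm_num))) G
  else 0

theorem z_inst {V : Type} {n : ℕ} (i j : Fintype V) (G : Gr V n) : @z V n i G = @z V n j G := by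
  have h : i = j := Subsingleton.elim i j
  subst h
  rfl

theorem z8_pos {V : Type} [Fintype V] {G : Gr V 8} (h1 : Nat.card V = 56) (h2 : GConn G) :
    z8 V G = z G := by
  unfold z8
  rw [dif_pos ⟨h1, h2⟩]
  exact z_inst _ _ G

theorem z8_neg {V : Type} {G : Gr V 8} (h : ¬ (Nat.card V = 56 ∧ GConn G)) : z8 V G = 0 := by
  unfold z8
  rw [dif_neg h]

/-- The input of level 8. -/
theorem in8 (Hloc : S_loc) (Hflip : S_flip) (Hmap : S_map) (Hc : S_cong) : In8 72 z8 where
  rel := by
    refine ⟨fun V W _ f G => ?_, fun V _ G x hx => ?_, fun V _ I J X x h => ?_⟩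
    · have : Finite W := Finite.of_equiv V f
      have : Fintype V := Fintype.ofFinite V
      have : Fintype W := Fintype.ofFinite W
      have hcard : Nat.card W = Nat.card V := (Nat.card_congr f).symm
      by_cases h : Nat.card V = 56 ∧ GConn G
      · rw [z8_pos h.1 h.2, z8_pos (by rw [hcard]; exact h.1) ((gconn_map f).2 h.2), z_map Hmap]
      · rw [z8_neg h, z8_neg]
        rintro ⟨h1, h2⟩
        exact h ⟨by rw [← hcard]; exact h1, (gconn_map f).1 h2⟩
    · have : Fintype V := Fintype.ofFinite V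
      by_cases h : Nat.card V = 56 ∧ GConn G
      · rw [z8_pos h.1 h.2, z8_pos h.1 (gconn_flip.2 h.2),
          z_flip Hflip hx (no_three h.2 (by rw [h.1]; norm_num) hx)
            fun φ hφ => nine_dvd Hc h.2 h.1 hφ]
      · rw [z8_neg h, z8_neg, neg_zero]
        rintro ⟨h1, h2⟩
        exact h ⟨h1, gconn_flip.1 h2⟩
    · have : Fintype V := Fintype.ofFinite V
      obtain ⟨gJ, gX⟩ := gconn_loc h
      by_cases h' : Nat.card V = 56 ∧ GConn I
      · rw [z8_pos h'.1 h'.2, z8_pos h'.1 (gJ.2 h'.2), z8_pos h'.1 (gX.2 h'.2)]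
        have h1 := z_loc Hloc h (fun φ hφ => nine_dvd Hc h'.2 h'.1 hφ)
          (fun φ hφ => nine_dvd Hc (gJ.2 h'.2) h'.1 hφ)
          (fun φ hφ => nine_dvd Hc (gX.2 h'.2) h'.1 hφ)
        linear_combination h1
      · rw [z8_neg h', z8_neg fun h1 => h' ⟨h1.1, gJ.1 h1.2⟩,
          z8_neg fun h1 => h' ⟨h1.1, gX.1 h1.2⟩, sub_zero]
  sym := by
    intro V _ g G
    have : Fintype V := Fintype.ofFinite V
    by_cases h : Nat.card V = 56 ∧ GConn G
    · rw [z8_pos h.1 h.2, z8_pos h.1 ((gconn_smul g).2 h.2), z_smul]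
    · rw [z8_neg h, z8_neg]
      rintro ⟨h1, h2⟩
      exact h ⟨h1, (gconn_smul g).1 h2⟩
  conn := fun V _ G h => z8_neg fun h1 => h h1.2
  size := fun V _ G h => z8_neg fun h1 => h (by rw [h1.1])

end Pool.Agent.SWT45
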