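import Pool.Agent.SWT45.CL

/-!
# The state sums vanish if the flow is zero at a vertex
-/

set_option autoImplicit false

namespace Pool.Agent.SWT45

open Equiv Pool.Agent.SWT80
open scoped Classical

theorem vp_zero {V : Type} {r : Perm V} {f : V → ℤ} (hf : ∀ v, f (r v) = f v) {x : V}
    (hx : r x ≠ x) (h0 : f x = 0) : vp r f = 0 := by
  unfold vp
  split_ifs with h
  · rcases h.choose_spec.ex x hx with h1 | h1 | h1
    · exact Finset.prod_eq_zero h1 h0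
    · exact Finset.prod_eq_zero h1 (by rw [hf, h0])
    · exact Finset.prod_eq_zero h1 (by rw [hf, hf, h0])
  · rfl

theorem T_inv {L V : Type} {n : ℕ} {S : LS L} (hS : S.Ok) (G : Gr V n) (s : V → L) (v : V) :
    (fun v => S.T (s v) (s (G.r v)) (s (G.r (G.r v)))) (G.r v) =
      (fun v => S.T (s v) (s (G.r v)) (s (G.r (G.r v)))) v := by
  show S.T (s (G.r v)) (s (G.r (G.r v))) (s (G.r (G.r (G.r v)))) = _
  rw [G.r3]
  exact (hS.cyc _ _ _).symm

/-- The weight of a state is zero if the structure constant at some vertex is zero. -/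
theorem wt_zero {L V : Type} [Fintype V] {n : ℕ} {S : LS L} (hS : S.Ok) (G : Gr V n) (s : V → L)
    {x : V} (hx : G.r x ≠ x) (h0 : S.T (s x) (s (G.r x)) (s (G.r (G.r x))) = 0) :
    wt S G s = 0 := by
  unfold wt
  rw [vp_zero (T_inv hS G s) hx h0, mul_zero]

theorem zf_zero {B V : Type} [Fintype B] [Fintype V] {n : ℕ} {S : LS (Option B)}
    {cl : B → ZMod 3} (hS : Good S cl)
    (h0 : ∀ a b c, (ec cl a = 0 ∧ ec cl b = 0 ∧ ec cl c = 0 ∧
      ¬ (a = none ∧ b = none ∧ c = none)) → S.T a b c = 0) {G : Gr V n} {x : V} {φ : V → ZMod 3} (hφ : Flow G φ) (hx : G.r x ≠ x)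
    (h1 : φ x = 0) (h2 : φ (G.r x) = 0) (h3 : φ (G.r (G.r x)) = 0)
    (hl : ¬ (Lg G x ∧ Lg G (G.r x) ∧ Lg G (G.r (G.r x)))) : Z S G (Al cl G φ) = 0 := by
  unfold Z
  refine Finset.sum_eq_zero fun s hs => ?_
  have hst : IsSt S G (Al cl G φ) s := (Finset.mem_filter.1 hs).2
  refine wt_zero hS.ok G s hx (h0 _ _ _ ⟨?_, ?_, ?_, ?_⟩)
  · rw [al_ec hφ (hst.1 x), h1]
  · rw [al_ec hφ (hst.1 _), h2]
  · rw [al_ec hφ (hst.1 _), h3]
  · rintro ⟨e1, e2, e3⟩
    exact hl ⟨(al_none (hst.1 _)).1 e1, (al_none (hst.1 _)).1 e2, (al_none (hst.1 _)).1 e3⟩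

theorem C_zero : S_Czero := fun _ _ _ _ _ _ hφ hx h1 h2 h3 hl =>
  ⟨zf_zero osp_good osp_zero hφ hx h1 h2 h3 hl, zf_zero gl_good gl_zero hφ hx h1 h2 h3 hl⟩

end Pool.Agent.SWT45
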