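import Pool.Agent.SWT45.Cnt

/-!
# The functional on the connected graphs with 8 legs and 56 half-edges
-/

set_option autoImplicit false

namespace Pool.Agent.SWT45

open Equiv Pool.Agent.SWT80 Pool.Agent.SWT93
open scoped Classical

section

variable {V W : Type} {n : ℕ}

/-! ### Renaming -/

theorem lg_map (f : V ≃ W) (G : Gr V n) (v : V) : Lg (G.map f) (f v) ↔ Lg G v := by
  unfold Lg
  rw [Gr.map_r, Gr.map_e, Gr.map_r, f.injective.eq_iff, f.injective.eq_iff]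

theorem flow_map (f : V ≃ W) (G : Gr V n) (φ : W → ZMod 3) :
    Flow (G.map f) φ ↔ Flow G (fun v => φ (f v)) := by
  constructor
  · intro h
    refine ⟨fun v => ?_, fun v => ?_, fun v hv => ?_⟩
    · have := h.e (f v)
      rwa [Gr.map_e] at this
    · have := h.r (f v)
      rwa [Gr.map_r, Gr.map_r] at this
    · exact h.leg (f v) (by rw [Gr.map_r, hv])
  · intro h
    refine ⟨fun w => ?_, fun w => ?_, fun w hw => ?_⟩
    · obtain ⟨v, rfl⟩ := f.surjective w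
      rw [Gr.map_e]
      exact h.e v
    · obtain ⟨v, rfl⟩ := f.surjective w
      rw [Gr.map_r, Gr.map_r]
      exact h.r v
    · obtain ⟨v, rfl⟩ := f.surjective w
      rw [Gr.map_r, f.injective.eq_iff] at hw
      exact h.leg v hw

theorem C_map (H : S_map) [Fintype V] [Fintype W] (f : V ≃ W) (G : Gr V n) (φ : W → ZMod 3) :
    C (G.map f) φ = C G (fun v => φ (f v)) := by
  have key : ∀ {B : Type} (cl : B → ZMod 3) (v : V) (l : Option B),
      Al cl (G.map f) φ (f v) l ↔ Al cl G (fun v => φ (f v)) v l := by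
    intro B cl v l
    cases l with
    | none => exact lg_map f G v
    | some b =>
      show (¬ Lg (G.map f) (f v) ∧ cl b = φ (f v)) ↔ (¬ Lg G v ∧ cl b = φ (f v))
      rw [lg_map]
  unfold C cosp cgl
  rw [H _ osp osp_ok V W n f G _ _ (key ocl), H _ gl gl_ok V W n f G _ _ (key gcl)]

theorem z_map (H : S_map) [Fintype V] [Fintype W] (f : V ≃ W) (G : Gr V n) :
    z (G.map f) = z G := by
  unfold z
  congr 1
  rw [Finset.sum_filter, Finset.sum_filter]
  refine Fintype.sum_equiv (f.symm.arrowCongr (Equiv.refl (ZMod 3))) _ _ fun φ => ?_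
  have h1 : ((f.symm.arrowCongr (Equiv.refl (ZMod 3))) φ) = fun v => φ (f v) := by
    funext v
    simp
  rw [h1, C_map H]
  by_cases h : Flow (G.map f) φ
  · rw [if_pos h, if_pos ((flow_map f G φ).1 h)]
  · rw [if_neg h, if_neg fun h' => h ((flow_map f G φ).2 h')]

theorem z_smul [Fintype V] (g : Perm (Fin n)) (G : Gr V n) : z (g • G) = z G := by
  have h1 : ∀ φ : V → ZMod 3, Flow (g • G) φ ↔ Flow G φ := fun φ =>
    ⟨fun h => ⟨h.e, h.r, h.leg⟩, fun h => ⟨h.e, h.r, h.leg⟩⟩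
  have h2 : ∀ {B : Type} (cl : B → ZMod 3) (φ : V → ZMod 3),
      Al cl (g • G) φ = Al cl G φ := by
    intro B cl φ
    funext v l
    cases l with
    | none => rfl
    | some b => rfl
  unfold z
  congr 1
  refine Finset.sum_congr (Finset.filter_congr fun φ _ => h1 φ) fun φ _ => ?_
  unfold C cosp cgl
  rw [h2, h2]
  rfl

/-! ### Reversal of a cyclic order -/

theorem flow_flip {G : Gr V n} {x : V} {φ : V → ZMod 3} :
    Flow (G.flip x) φ ↔ Flow G φ := by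
  have key : ∀ v, φ v + φ (G.fr x v) + φ (G.fr x (G.fr x v)) =
      φ v + φ (G.r v) + φ (G.r (G.r v)) := by
    intro v
    by_cases hx : G.vt x v
    · rw [Gr.fr_pos hx, Gr.fr_pos (G.vt_r.2 (G.vt_r.2 hx)), G.r3]
      ring
    · rw [Gr.fr_neg hx, Gr.fr_neg fun h => hx (G.vt_r.1 h)]
  constructor
  · intro h
    refine ⟨h.e, fun v => ?_, fun v hv => ?_⟩
    · have h1 := h.r v
      rw [Gr.flip_r, Gr.flip_r, key] at h1
      exact h1
    · exact h.leg v ((fix_congr (G.flip_leg x) v).2 hv)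
  · intro h
    refine ⟨h.e, fun v => ?_, fun v hv => ?_⟩
    · rw [Gr.flip_r, Gr.flip_r, key]
      exact h.r v
    · exact h.leg v ((fix_congr (G.flip_leg x) v).1 hv)

theorem z_flip (H0 : S_flip) [Fintype V] {G : Gr V n} {x : V} (hx : G.r x ≠ x)
    (h3 : ¬ (Lg G x ∧ Lg G (G.r x) ∧ Lg G (G.r (G.r x))))
    (h9 : ∀ φ, Flow G φ → (9 : ℤ) ∣ C G φ) : z (G.flip x) = - z G := by
  unfold z
  rw [← Int.cast_neg]
  congr 1
  rw [← Finset.sum_neg_distrib]
  refine Finset.sum_congr (Finset.filter_congr fun φ _ => flow_flip) fun φ hφ => ?_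
  have hφ' : Flow G φ := (Finset.mem_filter.1 hφ).2
  rw [C_flip H0 V n G x φ hφ' hx h3, Int.neg_ediv_of_dvd (h9 φ hφ')]

/-! ### Flows of graphs which differ at one edge -/

/-- The flow of another graph: changed on the edge `{x, y}`. -/
noncomputable def tr (x y a b c d : V) (φ : V → ZMod 3) (v : V) : ZMod 3 :=
  if v = x then - (φ a + φ b) else if v = y then - (φ c + φ d) else φ v

theorem tr_x {x y a b c d : V} {φ : V → ZMod 3} : tr x y a b c d φ x = - (φ a + φ b) := if_pos rfl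

theorem tr_y {x y a b c d : V} (h : y ≠ x) {φ : V → ZMod 3} :
    tr x y a b c d φ y = - (φ c + φ d) := by
  unfold tr
  rw [if_neg h, if_pos rfl]

theorem tr_o {x y a b c d v : V} (h : v ≠ x) (h' : v ≠ y) {φ : V → ZMod 3} :
    tr x y a b c d φ v = φ v := by
  unfold tr
  rw [if_neg h, if_neg h']

theorem flow_tot {G : Gr V n} {φ : V → ZMod 3} (h : Flow G φ) {x a b c d : V}
    (h1 : G.r x = a) (h2 : G.r a = b) (h3 : G.r (G.e x) = c) (h4 : G.r c = d) :
    φ a + φ b + φ c + φ d = 0 := by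
  have e1 := h.r x
  have e2 := h.r (G.e x)
  rw [h1, h2] at e1
  rw [h3, h4, h.e] at e2
  linear_combination e1 + e2

theorem flow_tr {G G' : Gr V n} {x a b c d : V} (he : G'.e = G.e) (hl : G'.leg = G.leg)
    (h1 : G'.r x = a) (h2 : G'.r a = b) (h3 : G'.r (G.e x) = c) (h4 : G'.r c = d)
    (ax : a ≠ x ∧ a ≠ G.e x) (bx : b ≠ x ∧ b ≠ G.e x) (cx : c ≠ x ∧ c ≠ G.e x)
    (dx : d ≠ x ∧ d ≠ G.e x)
    (oth : ∀ v, v ≠ x → v ≠ a → v ≠ b → v ≠ G.e x → v ≠ c → v ≠ d → G'.r v = G.r v)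
    {φ : V → ZMod 3} (hφ : Flow G φ) (ht : φ a + φ b + φ c + φ d = 0) :
    Flow G' (tr x (G.e x) a b c d φ) := by
  have hyx : G.e x ≠ x := G.e1 x
  have h5 : G'.r b = x := by rw [← h2, ← h1, G'.r3]
  have h6 : G'.r d = G.e x := by rw [← h4, ← h3, G'.r3]
  refine ⟨fun v => ?_, ?_, fun v hv => ?_⟩
  · rw [he]
    by_cases hx : v = x
    · rw [hx, tr_y hyx, tr_x]
      linear_combination - ht
    by_cases hy : v = G.e x
    · rw [hy, G.e2, tr_x, tr_y hyx]
      linear_combination - ht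
    · have e1 : G.e v ≠ x := fun h => hy (by rw [← h, G.e2])
      have e2 : G.e v ≠ G.e x := fun h => hx (G.e_inj h)
      rw [tr_o hx hy, tr_o e1 e2, hφ.e]
  · have sx : tr x (G.e x) a b c d φ x + tr x (G.e x) a b c d φ (G'.r x) +
        tr x (G.e x) a b c d φ (G'.r (G'.r x)) = 0 := by
      rw [h1, h2, tr_x, tr_o ax.1 ax.2, tr_o bx.1 bx.2]
      ring
    have sy : tr x (G.e x) a b c d φ (G.e x) + tr x (G.e x) a b c d φ (G'.r (G.e x)) +
        tr x (G.e x) a b c d φ (G'.r (G'.r (G.e x))) = 0 := by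
      rw [h3, h4, tr_y hyx, tr_o cx.1 cx.2, tr_o dx.1 dx.2]
      ring
    have hn : ∀ u, u ≠ x → u ≠ a → u ≠ b → u ≠ G.e x → u ≠ c → u ≠ d →
        G'.r u ≠ x ∧ G'.r u ≠ a ∧ G'.r u ≠ b ∧ G'.r u ≠ G.e x ∧ G'.r u ≠ c ∧ G'.r u ≠ d := by
      intro u u1 u2 u3 u4 u5 u6
      refine ⟨fun h => u3 ?_, fun h => u1 ?_, fun h => u2 ?_, fun h => u6 ?_, fun h => u4 ?_,
        fun h => u5 ?_⟩
      · exact G'.r_inj (h.trans h5.symm)
      · exact G'.r_inj (h.trans h1.symm)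
      · exact G'.r_inj (h.trans h2.symm)
      · exact G'.r_inj (h.trans h6.symm)
      · exact G'.r_inj (h.trans h3.symm)
      · exact G'.r_inj (h.trans h4.symm)
    have so : ∀ v, v ≠ x → v ≠ a → v ≠ b → v ≠ G.e x → v ≠ c → v ≠ d →
        tr x (G.e x) a b c d φ v + tr x (G.e x) a b c d φ (G'.r v) +
          tr x (G.e x) a b c d φ (G'.r (G'.r v)) = 0 := by
      intro v v1 v2 v3 v4 v5 v6
      obtain ⟨w1, w2, w3, w4, w5, w6⟩ := hn v v1 v2 v3 v4 v5 v6
      obtain ⟨z1, z2, z3, z4, z5, z6⟩ := hn _ w1 w2 w3 w4 w5 w6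
      rw [tr_o v1 v4, tr_o w1 w4, tr_o z1 z4, oth _ w1 w2 w3 w4 w5 w6, oth v v1 v2 v3 v4 v5 v6]
      exact hφ.r v
    intro v
    generalize tr x (G.e x) a b c d φ = T at sx sy so ⊢
    rw [h1, h2] at sx
    rw [h3, h4] at sy
    by_cases v1 : v = x
    · rw [v1, h1, h2]; exact sx
    by_cases v2 : v = a
    · rw [v2, h2, h5]; linear_combination sx
    by_cases v3 : v = b
    · rw [v3, h5, h1]; linear_combination sx
    by_cases v4 : v = G.e x
    · rw [v4, h3, h4]; exact sy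
    by_cases v5 : v = c
    · rw [v5, h4, h6]; linear_combination sy
    by_cases v6 : v = d
    · rw [v6, h6, h3]; linear_combination sy
    exact so v v1 v2 v3 v4 v5 v6
  · have hvx : v ≠ x := by
      rintro rfl
      exact ax.1 (h1.symm.trans hv)
    have hvy : v ≠ G.e x := by
      rintro rfl
      exact cx.2 (h3.symm.trans hv)
    rw [tr_o hvx hvy]
    exact hφ.leg v ((fix_congr hl v).1 hv)

/-- Replacing the flow twice gives the flow back. -/
theorem tr_tr {G : Gr V n} {φ : V → ZMod 3} (hφ : Flow G φ) {x a b c d a' b' c' d' : V}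
    (h1 : G.r x = a) (h2 : G.r a = b) (h3 : G.r (G.e x) = c) (h4 : G.r c = d)
    (ax : a ≠ x ∧ a ≠ G.e x) (bx : b ≠ x ∧ b ≠ G.e x) (cx : c ≠ x ∧ c ≠ G.e x)
    (dx : d ≠ x ∧ d ≠ G.e x) :
    tr x (G.e x) a b c d (tr x (G.e x) a' b' c' d' φ) = φ := by
  funext v
  by_cases hx : v = x
  · rw [hx, tr_x, tr_o ax.1 ax.2, tr_o bx.1 bx.2]
    have e1 := hφ.r x
    rw [h1, h2] at e1
    linear_combination - e1
  by_cases hy : v = G.e x
  · rw [hy, tr_y (G.e1 x), tr_o cx.1 cx.2, tr_o dx.1 dx.2]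
    have e1 := hφ.r (G.e x)
    rw [h3, h4] at e1
    linear_combination - e1
  · rw [tr_o hx hy, tr_o hx hy]

/-! ### IHX -/

theorem sum_tr [Fintype V] {G G' : Gr V n} {x a b c d a' b' c' d' : V} (he : G'.e = G.e)
    (hl : G'.leg = G.leg)
    (h1 : G.r x = a) (h2 : G.r a = b) (h3 : G.r (G.e x) = c) (h4 : G.r c = d)
    (h1' : G'.r x = a') (h2' : G'.r a' = b') (h3' : G'.r (G.e x) = c') (h4' : G'.r c' = d')
    (ax : a ≠ x ∧ a ≠ G.e x) (bx : b ≠ x ∧ b ≠ G.e x) (cx : c ≠ x ∧ c ≠ G.e x)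
    (dx : d ≠ x ∧ d ≠ G.e x)
    (hperm : ∀ v, (v = a ∨ v = b ∨ v = c ∨ v = d) ↔ (v = a' ∨ v = b' ∨ v = c' ∨ v = d'))
    (htot : ∀ φ : V → ZMod 3, φ a + φ b + φ c + φ d = φ a' + φ b' + φ c' + φ d')
    (oth : ∀ v, v ≠ x → v ≠ a → v ≠ b → v ≠ G.e x → v ≠ c → v ≠ d → G'.r v = G.r v)
    (F : (V → ZMod 3) → ℤ) :
    ∑ ψ ∈ (Finset.univ : Finset (V → ZMod 3)).filter (fun ψ => Flow G' ψ), F ψ =
      ∑ φ ∈ (Finset.univ : Finset (V → ZMod 3)).filter (fun φ => Flow G φ),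
        F (tr x (G.e x) a' b' c' d' φ) := by
  have hq : ∀ v, (v = a ∨ v = b ∨ v = c ∨ v = d) → v ≠ x ∧ v ≠ G.e x := by
    rintro v (rfl | rfl | rfl | rfl)
    · exact ax
    · exact bx
    · exact cx
    · exact dx
  have ax' := hq a' ((hperm a').2 (Or.inl rfl))
  have bx' := hq b' ((hperm b').2 (Or.inr (Or.inl rfl)))
  have cx' := hq c' ((hperm c').2 (Or.inr (Or.inr (Or.inl rfl))))
  have dx' := hq d' ((hperm d').2 (Or.inr (Or.inr (Or.inr rfl))))
  have oth' : ∀ v, v ≠ x → v ≠ a' → v ≠ b' → v ≠ G.e x → v ≠ c' → v ≠ d' → G'.r v = G.r v := by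
    intro v v1 v2 v3 v4 v5 v6
    have h5 : ¬ (v = a ∨ v = b ∨ v = c ∨ v = d) := fun h => by
      rcases (hperm v).1 h with h | h | h | h
      · exact v2 h
      · exact v3 h
      · exact v5 h
      · exact v6 h
    push Not at h5
    exact oth v v1 h5.1 h5.2.1 v4 h5.2.2.1 h5.2.2.2
  symm
  refine Finset.sum_nbij' (i := fun φ => tr x (G.e x) a' b' c' d' φ)
    (j := fun ψ => tr x (G.e x) a b c d ψ) ?_ ?_ ?_ ?_ fun _ _ => rfl
  · intro φ hφ
    have hφ' : Flow G φ := (Finset.mem_filter.1 hφ).2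
    refine Finset.mem_filter.2 ⟨Finset.mem_univ _, flow_tr he hl h1' h2' h3' h4' ax' bx' cx' dx'
      oth' hφ' ?_⟩
    rw [← htot]
    exact flow_tot hφ' h1 h2 h3 h4
  · intro ψ hψ
    have hψ' : Flow G' ψ := (Finset.mem_filter.1 hψ).2
    refine Finset.mem_filter.2 ⟨Finset.mem_univ _, ?_⟩
    have h5 := flow_tr (G := G') (G' := G) (x := x) he.symm hl.symm h1 h2 (by rw [he]; exact h3) h4
      (by rw [he]; exact ax) (by rw [he]; exact bx) (by rw [he]; exact cx) (by rw [he]; exact dx)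
      (by
        rw [he]
        intro v v1 v2 v3 v4 v5 v6
        exact (oth v v1 v2 v3 v4 v5 v6).symm) hψ' (by
        rw [htot]
        exact flow_tot hψ' h1' h2' (by rw [he]; exact h3') h4')
    rw [he] at h5
    exact h5
  · intro φ hφ
    exact tr_tr (Finset.mem_filter.1 hφ).2 h1 h2 h3 h4 ax bx cx dx
  · intro ψ hψ
    have h5 := tr_tr (G := G') (x := x) (a' := a) (b' := b) (c' := c) (d' := d)
      (Finset.mem_filter.1 hψ).2 h1' h2' (by rw [he]; exact h3') h4'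
      (by rw [he]; exact ax') (by rw [he]; exact bx') (by rw [he]; exact cx')
      (by rw [he]; exact dx')
    rw [he] at h5
    exact h5

theorem z_loc (H0 : S_loc) [Fintype V] {I J X : Gr V n} {x : V} (h : Gr.Loc I J X x)
    (hI : ∀ φ, Flow I φ → (9 : ℤ) ∣ C I φ) (hJ : ∀ φ, Flow J φ → (9 : ℤ) ∣ C J φ)
    (hX : ∀ φ, Flow X φ → (9 : ℤ) ∣ C X φ) : z I - z J + z X = 0 := by
  obtain ⟨ha, hb, hc, hd⟩ := loc_ne h.ok
  have oth : ∀ v, v ≠ x → v ≠ I.r x → v ≠ I.r (I.r x) → v ≠ I.e x → v ≠ I.r (I.e x) →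
      v ≠ I.r (I.r (I.e x)) → J.r v = I.r v ∧ X.r v = I.r v := by
    intro v v1 v2 v3 v4 v5 v6
    refine h.oth v ?_ ?_
    · rintro (h1 | h1 | h1)
      · exact v1 h1
      · exact v2 h1
      · exact v3 h1
    · rintro (h1 | h1 | h1)
      · exact v4 h1
      · exact v5 h1
      · exact v6 h1
  have eJ := sum_tr (G := I) (G' := J) (x := x) h.eJ h.lJ rfl rfl rfl rfl h.j1 h.j2 h.j4 h.j5
    ha hb hc hd
    (by intro v; constructor <;> (rintro (h1 | h1 | h1 | h1) <;> simp [h1]))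
    (by intro φ; ring) (fun v v1 v2 v3 v4 v5 v6 => (oth v v1 v2 v3 v4 v5 v6).1)
    (fun ψ => C J ψ / 9)
  have eX := sum_tr (G := I) (G' := X) (x := x) h.eX h.lX rfl rfl rfl rfl h.x1 h.x2 h.x4 h.x5
    ha hb hc hd
    (by intro v; constructor <;> (rintro (h1 | h1 | h1 | h1) <;> simp [h1]))
    (by intro φ; ring) (fun v v1 v2 v3 v4 v5 v6 => (oth v v1 v2 v3 v4 v5 v6).2)
    (fun ψ => C X ψ / 9)
  unfold z
  rw [eJ, eX, ← Int.cast_sub, ← Int.cast_add, ← Finset.sum_sub_distrib, ← Finset.sum_add_distrib,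
    Int.cast_sum]
  refine Finset.sum_eq_zero fun φ hφ => ?_
  have hφ' : Flow I φ := (Finset.mem_filter.1 hφ).2
  have hψ : Flow J (tr x (I.e x) (I.r (I.r x)) (I.r (I.e x)) (I.r (I.r (I.e x))) (I.r x) φ) := by
    refine flow_tr h.eJ h.lJ h.j1 h.j2 h.j4 h.j5 hb hc hd ha
      (fun v v1 v2 v3 v4 v5 v6 => (oth v v1 v6 v2 v4 v3 v5).1) hφ' ?_
    have := flow_tot hφ' (x := x) rfl rfl rfl rfl
    linear_combination this
  have hχ : Flow X (tr x (I.e x) (I.r x) (I.r (I.e x)) (I.r (I.r (I.e x))) (I.r (I.r x)) φ) := by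
    refine flow_tr h.eX h.lX h.x1 h.x2 h.x4 h.x5 ha hc hd hb
      (fun v v1 v2 v3 v4 v5 v6 => (oth v v1 v2 v6 v4 v3 v5).2) hφ' ?_
    have := flow_tot hφ' (x := x) rfl rfl rfl rfl
    linear_combination this
  have oψ : Off I x φ (tr x (I.e x) (I.r (I.r x)) (I.r (I.e x)) (I.r (I.r (I.e x))) (I.r x) φ) :=
    fun v v1 v2 => tr_o v1 v2
  have oχ : Off I x φ (tr x (I.e x) (I.r x) (I.r (I.e x)) (I.r (I.r (I.e x))) (I.r (I.r x)) φ) :=
    fun v v1 v2 => tr_o v1 v2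
  obtain ⟨p, hp⟩ := hI φ hφ'
  obtain ⟨q, hq⟩ := hJ _ hψ
  obtain ⟨s, hs⟩ := hX _ hχ
  obtain ⟨g1, g2⟩ := C_loc H0 h hφ' hψ hχ oψ oχ
  rw [hp, hq, hs] at g1 g2
  rw [hp, hq, hs, Int.mul_ediv_cancel_left _ (by norm_num), Int.mul_ediv_cancel_left _ (by norm_num),
    Int.mul_ediv_cancel_left _ (by norm_num)]
  by_cases hbad : BadF I x φ
  · obtain ⟨g3, g4⟩ := g2 hbad
    have e1 : p = - q := by linarith
    have e2 : p = s := by linarith
    have e3 : p - q + s = 3 * p := by linarith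
    rw [e3, Int.cast_mul]
    have h3 : ((3 : ℤ) : ZMod 3) = 0 := by decide
    rw [h3, zero_mul]
  · have e1 : p - q + s = 0 := by linarith [g1 hbad]
    rw [e1, Int.cast_zero]

end

end Pool.Agent.SWT45
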